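import Mathlib

/-!
# Antisymmetric functions with vanishing convolution
-/

namespace Pool.Agent.Helper41.AC

open Finset Polynomial

theorem pow_indep {s : ℕ} {ζ : ℂ} (hζ : IsPrimitiveRoot ζ (2 * 2 ^ s)) {d : ℕ → ℤ}
    (h : ∑ v ∈ Finset.range (2 ^ s), (d v : ℂ) * ζ ^ v = 0) {v : ℕ} (hv : v < 2 ^ s) : d v = 0 := by
  set P : ℤ[X] := ∑ v ∈ Finset.range (2 ^ s), C (d v) * X ^ v with hP
  have hcoeff : ∀ v, P.coeff v = if v < 2 ^ s then d v else 0 := by
    intro v
    rw [hP, finsetSum_coeff]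
    simp only [coeff_C_mul, coeff_X_pow, mul_ite, mul_one, mul_zero]
    rw [Finset.sum_ite_eq]
    simp only [Finset.mem_range]
  have hroot : aeval ζ P = 0 := by
    rw [hP, map_sum, ← h]
    refine Finset.sum_congr rfl fun v _ => ?_
    simp
  have hN : 0 < 2 * 2 ^ s := by positivity
  have hdvd : minpoly ℤ ζ ∣ P := minpoly.isIntegrallyClosed_dvd (hζ.isIntegral hN) hroot
  have hdeg := hζ.totient_le_degree_minpoly
  have htot : Nat.totient (2 * 2 ^ s) = 2 ^ s := by
    have h1 : 2 * 2 ^ s = 2 ^ (s + 1) := by rw [pow_succ]; ring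
    rw [h1, Nat.totient_prime_pow_succ Nat.prime_two]
    simp
  rw [htot] at hdeg
  have hPdeg : P.natDegree < 2 ^ s := by
    have h1 : P.natDegree ≤ 2 ^ s - 1 := by
      rw [Polynomial.natDegree_le_iff_coeff_eq_zero]
      intro N hN
      rw [hcoeff, if_neg (by omega)]
    have h2 : 0 < 2 ^ s := by positivity
    omega
  have hP0 : P = 0 := by
    by_contra hne
    have := Polynomial.natDegree_le_of_dvd hdvd hne
    omega
  have h1 := hcoeff v
  rw [hP0, coeff_zero, if_pos hv] at h1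
  exact h1.symm

theorem sum_period {N : ℕ} {f : ℕ → ℂ} (hf : ∀ c, f (c + N) = f c) (a : ℕ) :
    ∑ c ∈ Finset.range N, f (c + a) = ∑ c ∈ Finset.range N, f c := by
  induction a with
  | zero => rfl
  | succ a ih =>
    rw [← ih]
    have h1 := Finset.sum_range_succ (fun c => f (c + a)) N
    have h2 := Finset.sum_range_succ' (fun c => f (c + a)) N
    have h3 : ∑ c ∈ Finset.range N, f (c + (a + 1)) = ∑ c ∈ Finset.range N, f (c + 1 + a) :=
      Finset.sum_congr rfl fun c _ => by congr 1; ring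
    rw [h3]
    rw [h1] at h2
    have h4 : f (N + a) = f (0 + a) := by
      rw [add_comm N a, hf, zero_add]
    rw [h4] at h2
    exact (add_right_cancel h2).symm

/-- The balanced patterns. -/
def IsBal (m : ℕ) (α : Fin 10 → ℕ) : Prop :=
  ∀ v < m, (Finset.univ.filter fun i => α i % (2 * m) = v).card =
    (Finset.univ.filter fun i => α i % (2 * m) = v + m).card

theorem isBal_of {s : ℕ} {D : ℕ → ℤ} (hD : ∀ c, D (c + 2 ^ s) = - D c) (hodd : ∀ c, D c ≠ 0)
    {α : Fin 10 → ℕ} (h : ∀ c, ∑ i, D (c + α i) = 0) : IsBal (2 ^ s) α := by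
  set m := 2 ^ s with hm
  have hm0 : 0 < m := by positivity
  set ξ : ℂ := Complex.exp (2 * Real.pi * Complex.I / ((2 * m : ℕ) : ℂ)) with hξ
  have hξp : IsPrimitiveRoot ξ (2 * m) := Complex.isPrimitiveRoot_exp (2 * m) (by omega)
  have hξ0 : ξ ≠ 0 := hξp.ne_zero (by omega)
  have hξm : ξ ^ m = -1 := by
    have h1 : ξ ^ m * ξ ^ m = 1 := by rw [← pow_add, ← two_mul, hξp.pow_eq_one]
    rcases mul_self_eq_one_iff.1 h1 with h2 | h2
    · exact absurd h2 (hξp.pow_ne_one_of_pos_of_lt hm0.ne' (by omega))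
    · exact h2
  have hD2 : ∀ c, D (c + 2 * m) = D c := by
    intro c
    rw [two_mul, ← add_assoc, hD, hD, neg_neg]
  -- the transform
  set E : ℂ := ∑ c ∈ Finset.range (2 * m), (D c : ℂ) * ξ ^ c with hE
  have hper : ∀ a, ∑ c ∈ Finset.range (2 * m), (D (c + a) : ℂ) * ξ ^ (c + a) = E :=
    sum_period (f := fun c => (D c : ℂ) * ξ ^ c) (fun c => by
      rw [hD2, pow_add, hξp.pow_eq_one, mul_one])
  have hE0 : E ≠ 0 := by
    have h1 : E = 2 * ∑ c ∈ Finset.range m, (D c : ℂ) * ξ ^ c := by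
      rw [hE, two_mul m, Finset.sum_range_add, two_mul]
      congr 1
      refine Finset.sum_congr rfl fun c _ => ?_
      rw [add_comm m c, hD, pow_add, hξm]
      push_cast
      ring
    rw [h1]
    intro h2
    have h3 := (mul_eq_zero.1 h2).resolve_left two_ne_zero
    exact hodd 0 (pow_indep hξp h3 hm0)
  have hprod : E * ∑ i, ξ⁻¹ ^ α i = 0 := by
    rw [Finset.mul_sum]
    calc ∑ i, E * ξ⁻¹ ^ α i =
          ∑ i, ∑ c ∈ Finset.range (2 * m), (D (c + α i) : ℂ) * ξ ^ c := by
          refine Finset.sum_congr rfl fun i _ => ?_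
          rw [← hper (α i), Finset.sum_mul]
          refine Finset.sum_congr rfl fun c _ => ?_
          rw [pow_add, inv_pow, mul_assoc, mul_assoc, mul_inv_cancel₀ (pow_ne_zero _ hξ0), mul_one]
      _ = ∑ c ∈ Finset.range (2 * m), ((∑ i, D (c + α i) : ℤ) : ℂ) * ξ ^ c := by
          rw [Finset.sum_comm]
          refine Finset.sum_congr rfl fun c _ => ?_
          rw [Int.cast_sum, Finset.sum_mul]
      _ = 0 := by
          refine Finset.sum_eq_zero fun c _ => ?_
          rw [h, Int.cast_zero, zero_mul]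
  have hsum := (mul_eq_zero.1 hprod).resolve_left hE0
  -- the multiplicities
  have hζp : IsPrimitiveRoot ξ⁻¹ (2 * m) := hξp.inv
  have hζm : ξ⁻¹ ^ m = -1 := by rw [inv_pow, hξm]; norm_num
  have h1 : ∑ i, ξ⁻¹ ^ α i = ∑ v ∈ Finset.range m,
      ((((Finset.univ.filter fun i => α i % (2 * m) = v).card : ℤ) -
        ((Finset.univ.filter fun i => α i % (2 * m) = v + m).card : ℤ) : ℤ) : ℂ) * ξ⁻¹ ^ v := by
    have h2 : ∀ i, ξ⁻¹ ^ α i = ξ⁻¹ ^ (α i % (2 * m)) := by
      intro i
      conv_lhs => rw [← Nat.div_add_mod (α i) (2 * m), pow_add, pow_mul, hζp.pow_eq_one, one_pow,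
        one_mul]
    rw [Finset.sum_congr rfl fun i _ => h2 i,
      ← Finset.sum_fiberwise_of_maps_to (s := Finset.univ) (t := Finset.range (2 * m))
        (g := fun i => α i % (2 * m)) (fun i _ => Finset.mem_range.2 (Nat.mod_lt _ (by omega)))]
    have h3 : ∀ v ∈ Finset.range (2 * m),
        ∑ i ∈ Finset.univ.filter (fun i => α i % (2 * m) = v), ξ⁻¹ ^ (α i % (2 * m)) =
          ((Finset.univ.filter fun i => α i % (2 * m) = v).card : ℂ) * ξ⁻¹ ^ v := by
      intro v _
      rw [Finset.sum_congr rfl fun i hi => by rw [(Finset.mem_filter.1 hi).2], Finset.sum_const,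
        nsmul_eq_mul]
    rw [Finset.sum_congr rfl h3, two_mul m, Finset.sum_range_add, ← Finset.sum_add_distrib]
    refine Finset.sum_congr rfl fun v _ => ?_
    rw [pow_add, hζm, add_comm m v]
    push_cast
    ring
  rw [h1] at hsum
  intro v hv
  have h2 := pow_indep hζp hsum hv
  omega

end Pool.Agent.Helper41.AC
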