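import Pool.Agent.Helper41.AC.Sign
import Pool.Agent.Helper41.AC.Indep

/-!
# The balanced patterns and random phases
-/

namespace Pool.Agent.Helper41.AC

open Finset

section

variable {F : Type} [Field F] {m : ℕ} (τ : MulChar F ℂ)

/-- a function of the class modulo `2 m` of one coordinate -/
noncomputable def coord₂ (m : ℕ) (ζ : ℂ) (φ : ℕ → ℂ) (i : Fin 10) (x : Fin 10 → F) : ℂ :=
  ∑ k ∈ Finset.range (2 * m), ft (2 * m) ζ φ k * ∏ l, cv τ (Pi.single i k) l (x l)

theorem coord₂_repr {ζ : ℂ} (hm : 0 < m) (hζ : IsPrimitiveRoot ζ (2 * m)) {φ : ℕ → ℂ}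
    (hφ : ∀ c, ‖φ c‖ ≤ 1) (i : Fin 10) :
    Repr (coord₂ τ m ζ φ i) (Real.sqrt (2 * m : ℕ)) := by
  have h := Repr.sum (s := Finset.range (2 * m)) (K := fun k => ‖ft (2 * m) ζ φ k‖) fun k _ =>
    repr_char (ft (2 * m) ζ φ k) (cv τ (Pi.single i k))
  exact h.mono (ft_norm (by omega) hζ hφ)

theorem coord₂_eq {g : Fˣ} {ζ : ℂ} (hm : 0 < m) (hζ : IsPrimitiveRoot ζ (2 * m)) (hτ : τ g = ζ)
    (φ : ℕ → ℂ) (i : Fin 10) (α : Fin 10 → ℕ) :
    coord₂ τ m ζ φ i (fun l => ((g ^ α l : Fˣ) : F)) = φ (α i % (2 * m)) := by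
  rw [coord₂]
  simp only [cv_apply τ hτ]
  have h1 : ∀ k, ∑ l, (Pi.single i k : Fin 10 → ℕ) l * α l = k * α i := by
    intro k
    simp only [Pi.single_apply, ite_mul, zero_mul, Finset.sum_ite_eq', Finset.mem_univ, if_true]
  simp only [h1]
  have h2 : ∀ k, ζ ^ (k * α i) = ζ ^ (k * (α i % (2 * m))) := by
    intro k
    conv_lhs => rw [← Nat.mod_add_div (α i) (2 * m), mul_add, pow_add]
    have : k * (2 * m * (α i / (2 * m))) = 2 * m * (k * (α i / (2 * m))) := by ring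
    rw [this, pow_mul _ (2 * m), hζ.pow_eq_one, one_pow, mul_one]
  simp only [h2]
  exact ft_inv (by omega) hζ φ (Nat.mod_lt (α i) (by omega))

/-- a sequence of phases as a function on the natural numbers -/
noncomputable def phase (ρ : ℂ) (w : Fin m → Fin 11) (c : ℕ) : ℂ :=
  if h : c < m then ρ ^ (w ⟨c, h⟩ : ℕ) else
    if h : c - m < m then ρ⁻¹ ^ (w ⟨c - m, h⟩ : ℕ) else 0

theorem norm_phase {ρ : ℂ} (hρ : ‖ρ‖ = 1) (w : Fin m → Fin 11) (c : ℕ) : ‖phase ρ w c‖ ≤ 1 := by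
  rw [phase]
  split_ifs
  · rw [norm_pow, hρ, one_pow]
  · rw [norm_pow, norm_inv, hρ, inv_one, one_pow]
  · rw [norm_zero]
    exact zero_le_one

/-- the indicator function of the balanced patterns, by random phases -/
noncomputable def bexc (m : ℕ) (ζ ρ : ℂ) (x : Fin 10 → F) : ℂ :=
  ∑ w : Fin m → Fin 11, (1 / 11 ^ m : ℂ) * ∏ i, coord₂ τ m ζ (phase ρ w) i x

theorem bexc_repr {ζ ρ : ℂ} (hm : 0 < m) (hζ : IsPrimitiveRoot ζ (2 * m)) (hρ : ‖ρ‖ = 1) :
    Repr (bexc τ m ζ ρ) ((2 * m) ^ 5) := by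
  have hs : ∏ _i : Fin 10, Real.sqrt (2 * m : ℕ) = ((2 * m : ℕ) : ℝ) ^ 5 := by
    rw [Finset.prod_const, Finset.card_univ, Fintype.card_fin]
    have : Real.sqrt (2 * m : ℕ) ^ 10 = (Real.sqrt (2 * m : ℕ) ^ 2) ^ 5 := by ring
    rw [this, Real.sq_sqrt (Nat.cast_nonneg _)]
  have h1 : ∀ w : Fin m → Fin 11, Repr (fun x => ∏ i, coord₂ τ m ζ (phase ρ w) i x)
      (((2 * m : ℕ) : ℝ) ^ 5) := by
    intro w
    rw [← hs]
    exact Repr.prod fun i _ => coord₂_repr τ hm hζ (norm_phase hρ w) i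
  have h3 := Repr.sum (s := (Finset.univ : Finset (Fin m → Fin 11)))
    (K := fun _ => ‖(1 / 11 ^ m : ℂ)‖ * ((2 * m : ℕ) : ℝ) ^ 5) fun w _ =>
      (repr_const (1 / 11 ^ m : ℂ)).mul (h1 w)
  refine h3.mono (le_of_eq ?_)
  rw [Finset.sum_const, Finset.card_univ, Fintype.card_fun, Fintype.card_fin, Fintype.card_fin,
    nsmul_eq_mul, norm_div, norm_one, norm_pow, Complex.norm_ofNat]
  push_cast
  field_simp

theorem phase_sum {ρ : ℂ} (hρ : IsPrimitiveRoot ρ 11) {a b : ℕ} (ha : a ≤ 10) (hb : b ≤ 10) :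
    ∑ w : Fin 11, ρ ^ ((w : ℕ) * a) * ρ⁻¹ ^ ((w : ℕ) * b) = if a = b then (11 : ℂ) else 0 := by
  have h := orth (m := 11) (by norm_num) hρ (a := a) (b := b) (by omega) (by omega)
  rw [Finset.sum_range] at h
  exact_mod_cast h

/-- the sum over the phases -/
theorem sum_phases {ρ : ℂ} (hρ : IsPrimitiveRoot ρ 11) {d : Fin 10 → ℕ}
    (hd : ∀ i, d i < 2 * m) [Decidable (∀ v < m, (Finset.univ.filter fun i => d i = v).card =
      (Finset.univ.filter fun i => d i = v + m).card)] :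
    ∑ w : Fin m → Fin 11, ∏ i, phase ρ w (d i) =
      if ∀ v < m, (Finset.univ.filter fun i => d i = v).card =
        (Finset.univ.filter fun i => d i = v + m).card then (11 : ℂ) ^ m else 0 := by
  have h1 : ∀ w : Fin m → Fin 11, ∏ i, phase ρ w (d i) =
      ∏ v : Fin m, ρ ^ ((w v : ℕ) * (Finset.univ.filter fun i => d i = v).card) *
        ρ⁻¹ ^ ((w v : ℕ) * (Finset.univ.filter fun i => d i = v + m).card) := by
    intro w
    rw [← Finset.prod_fiberwise_of_maps_to (s := Finset.univ) (t := Finset.range (2 * m))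
      (g := d) (fun i _ => Finset.mem_range.2 (hd i)), two_mul m, Finset.prod_range_add,
      Finset.prod_mul_distrib, Finset.prod_range, Finset.prod_range]
    congr 1
    · refine Finset.prod_congr rfl fun v _ => ?_
      rw [pow_mul, ← Finset.prod_const]
      refine Finset.prod_congr rfl fun i hi => ?_
      rw [(Finset.mem_filter.1 hi).2, phase, dif_pos v.isLt]
    · refine Finset.prod_congr rfl fun v _ => ?_
      rw [pow_mul, ← Finset.prod_const, add_comm (v : ℕ) m]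
      refine Finset.prod_congr rfl fun i hi => ?_
      rw [(Finset.mem_filter.1 hi).2, phase, dif_neg (by omega),
        dif_pos (by rw [Nat.add_sub_cancel_left]; exact v.isLt)]
      congr 3
      exact Fin.ext (Nat.add_sub_cancel_left m v)
  simp only [h1]
  have h2 := Finset.prod_univ_sum (fun _ : Fin m => (Finset.univ : Finset (Fin 11)))
    (fun v w => ρ ^ ((w : ℕ) * (Finset.univ.filter fun i => d i = (v : ℕ)).card) *
        ρ⁻¹ ^ ((w : ℕ) * (Finset.univ.filter fun i => d i = (v : ℕ) + m).card))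
  rw [Fintype.piFinset_univ] at h2
  rw [← h2]
  have hle : ∀ v, (Finset.univ.filter fun i => d i = v).card ≤ 10 := by
    intro v
    refine (Finset.card_le_univ _).trans ?_
    rw [Fintype.card_fin]
  simp only [phase_sum hρ (hle _) (hle _)]
  split_ifs with h
  · rw [Finset.prod_congr rfl fun (v : Fin m) _ => if_pos (h v v.isLt)]
    simp
  · push Not at h
    obtain ⟨v, hv, hv'⟩ := h
    exact Finset.prod_eq_zero (Finset.mem_univ (⟨v, hv⟩ : Fin m)) (if_neg hv')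

theorem bexc_eq (hm : 0 < m) {g : Fˣ} {ζ ρ : ℂ} (hζ : IsPrimitiveRoot ζ (2 * m))
    (hρ : IsPrimitiveRoot ρ 11) (hτ : τ g = ζ) (α : Fin 10 → ℕ) [Decidable (IsBal m α)] :
    bexc τ m ζ ρ (fun l => ((g ^ α l : Fˣ) : F)) = if IsBal m α then 1 else 0 := by
  classical
  rw [bexc]
  simp only [coord₂_eq τ hm hζ hτ]
  rw [← Finset.mul_sum, sum_phases hρ fun i => Nat.mod_lt _ (by omega)]
  by_cases h : IsBal m α
  · rw [if_pos h, if_pos (show ∀ v < m, _ from h)]
    field_simp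
  · rw [if_neg h, if_neg (show ¬ ∀ v < m, _ from h), mul_zero]

end

end Pool.Agent.Helper41.AC
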