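import Pool.Agent.Helper41.AC.Exc

/-!
# Binomial coefficients and exceptional patterns
-/

namespace Pool.Agent.Helper41.AC

open Finset

theorem block_lucas (s n k : ℕ) :
    n.choose k ≡ (n % 2 ^ s).choose (k % 2 ^ s) * (n / 2 ^ s).choose (k / 2 ^ s) [MOD 2] := by
  have : Fact (Nat.Prime 2) := ⟨Nat.prime_two⟩
  induction s generalizing n k with
  | zero =>
    simp only [pow_zero, Nat.mod_one, Nat.div_one, Nat.choose_zero_right, one_mul]
    exact Nat.ModEq.refl _
  | succ s ih =>
    have h1 := ih n k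
    have h2 := Choose.choose_modEq_choose_mod_mul_choose_div_nat (n := n / 2 ^ s) (k := k / 2 ^ s)
      (p := 2)
    have h3 := ih (n % 2 ^ (s + 1)) (k % 2 ^ (s + 1))
    rw [Nat.div_div_eq_div_mul, Nat.div_div_eq_div_mul, ← pow_succ] at h2
    have e1 : ∀ x : ℕ, x % 2 ^ (s + 1) % 2 ^ s = x % 2 ^ s := fun x =>
      Nat.mod_mod_of_dvd x (pow_dvd_pow 2 (Nat.le_succ s))
    have e2 : ∀ x : ℕ, x % 2 ^ (s + 1) / 2 ^ s = x / 2 ^ s % 2 := fun x => by
      rw [pow_succ, Nat.mod_mul_right_div_self]
    rw [e1, e1, e2, e2] at h3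
    calc n.choose k ≡ (n % 2 ^ s).choose (k % 2 ^ s) * (n / 2 ^ s).choose (k / 2 ^ s) [MOD 2] := h1
      _ ≡ (n % 2 ^ s).choose (k % 2 ^ s) * ((n / 2 ^ s % 2).choose (k / 2 ^ s % 2) *
            (n / 2 ^ (s + 1)).choose (k / 2 ^ (s + 1))) [MOD 2] := Nat.ModEq.mul_left _ h2
      _ ≡ _ [MOD 2] := by
        rw [← mul_assoc]
        exact Nat.ModEq.mul_right _ h3.symm

theorem choose_lt {s j : ℕ} (hj : j < 2 ^ s) (n : ℕ) :
    n.choose j ≡ (n % 2 ^ s).choose j [MOD 2] := by
  have h := block_lucas s n j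
  rwa [Nat.mod_eq_of_lt hj, Nat.div_eq_of_lt hj, Nat.choose_zero_right, mul_one] at h

theorem choose_eq (s n : ℕ) : n.choose (2 ^ s) ≡ n / 2 ^ s [MOD 2] := by
  have h := block_lucas s n (2 ^ s)
  rwa [Nat.mod_self, Nat.div_self (by positivity), Nat.choose_zero_right, one_mul,
    Nat.choose_one_right] at h

theorem even_sum_congr {f g : Fin 10 → ℕ} (h : ∀ i, f i ≡ g i [MOD 2]) :
    Even (∑ i, f i) ↔ Even (∑ i, g i) := by
  have h1 : ∑ i, f i ≡ ∑ i, g i [MOD 2] := by
    rw [← ZMod.natCast_eq_natCast_iff]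
    push_cast
    refine Finset.sum_congr rfl fun i _ => ?_
    exact (ZMod.natCast_eq_natCast_iff _ _ _).2 (h i)
  rw [Nat.even_iff, Nat.even_iff, h1]

/-- The parities of the sums of binomial coefficients determine the parities of the
multiplicities. -/
theorem even_of_choose {m : ℕ} {c : Fin 10 → ℕ} (hc : ∀ i, c i < m)
    (h : ∀ j < m, Even (∑ i, (c i).choose j)) (v : ℕ) :
    Even (Finset.univ.filter fun i => c i = v).card := by
  by_contra hv
  -- the largest exception
  have hfin : ∀ w, ¬ Even (Finset.univ.filter fun i => c i = w).card → w < m := by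
    intro w hw
    by_contra hwm
    apply hw
    rw [Finset.filter_false_of_mem, Finset.card_empty]
    · exact Even.zero
    · intro i _ h1
      have := hc i
      omega
  obtain ⟨w, hw, hmax⟩ : ∃ w, ¬ Even (Finset.univ.filter fun i => c i = w).card ∧
      ∀ w', w < w' → Even (Finset.univ.filter fun i => c i = w').card := by
    have hne : ((Finset.range m).filter fun w =>
        ¬ Even (Finset.univ.filter fun i => c i = w).card).Nonempty :=
      ⟨v, Finset.mem_filter.2 ⟨Finset.mem_range.2 (hfin v hv), hv⟩⟩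
    obtain ⟨w, hw, hmax⟩ := Finset.exists_max_image _ id hne
    refine ⟨w, (Finset.mem_filter.1 hw).2, fun w' hw' => ?_⟩
    by_contra h1
    have := hmax w' (Finset.mem_filter.2 ⟨Finset.mem_range.2 (hfin w' h1), h1⟩)
    simp only [id] at this
    omega
  have h1 := h w (hfin w hw)
  have h2 : ∑ i, (c i).choose w = ∑ u ∈ Finset.range m,
      (Finset.univ.filter fun i => c i = u).card * u.choose w := by
    rw [← Finset.sum_fiberwise_of_maps_to (s := Finset.univ) (t := Finset.range m) (g := c)
      (fun i _ => Finset.mem_range.2 (hc i))]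
    refine Finset.sum_congr rfl fun u _ => ?_
    rw [Finset.sum_congr rfl fun i hi => by rw [(Finset.mem_filter.1 hi).2], Finset.sum_const,
      smul_eq_mul]
  rw [h2, ← Finset.add_sum_erase _ _ (Finset.mem_range.2 (hfin w hw)), Nat.choose_self,
    mul_one] at h1
  have h3 : Even (∑ u ∈ (Finset.range m).erase w,
      (Finset.univ.filter fun i => c i = u).card * u.choose w) := by
    refine Finset.even_sum _ fun u hu => ?_
    have hne := (Finset.mem_erase.1 hu).1
    rcases lt_or_gt_of_ne hne with h4 | h4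
    · rw [Nat.choose_eq_zero_of_lt h4, mul_zero]
      exact Even.zero
    · exact (hmax u h4).mul_right _
  exact hw ((Nat.even_add.1 h1).2 h3)

/-- A pattern not satisfying the criterion is exceptional. -/
theorem isExc_of {s : ℕ} {α : Fin 10 → ℕ}
    (h1 : ∀ j < 2 ^ s, Even (∑ i, (α i).choose j)) (h2 : Odd (∑ i, (α i).choose (2 ^ s))) :
    IsExc (2 ^ s) α := by
  constructor
  · intro i
    refine even_of_choose (m := 2 ^ s) (c := fun i => α i % 2 ^ s)
      (fun i => Nat.mod_lt _ (by positivity)) (fun j hj => ?_) _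
    rw [← even_sum_congr fun i => choose_lt hj (α i)]
    exact h1 j hj
  · rw [← Nat.not_even_iff_odd] at h2 ⊢
    rwa [← even_sum_congr fun i => choose_eq s (α i)]

/-- The criterion does not depend on the choice of the origin. -/
theorem shift {s : ℕ} {α : Fin 10 → ℕ} (β : ℕ)
    (h : (∃ j < 2 ^ s, Odd (∑ i, (α i).choose j)) ∨ Even (∑ i, (α i).choose (2 ^ s))) :
    (∃ j < 2 ^ s, Odd (∑ i, (α i + β).choose j)) ∨ Even (∑ i, (α i + β).choose (2 ^ s)) := by
  by_contra hc
  push Not at hc
  obtain ⟨h1, h2⟩ := hc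
  have h1' : ∀ j < 2 ^ s, Even (∑ i, (α i + β).choose j) := fun j hj =>
    Nat.not_odd_iff_even.1 (h1 j hj)
  -- all the sums for the original indices
  have hv : ∀ k, ∑ i, (α i + β).choose k =
      ∑ x ∈ Finset.HasAntidiagonal.antidiagonal k, (∑ i, (α i).choose x.1) * β.choose x.2 := by
    intro k
    rw [Finset.sum_congr rfl fun i _ => Nat.add_choose_eq (α i) β k, Finset.sum_comm]
    refine Finset.sum_congr rfl fun x _ => ?_
    rw [Finset.sum_mul]
  have hlow : ∀ j, j < 2 ^ s → Even (∑ i, (α i).choose j) := by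
    intro j
    induction j using Nat.strong_induction_on with
    | _ j ih =>
      intro hj
      have h3 := h1' j hj
      rw [hv, ← Finset.add_sum_erase _ _ (show ((j, 0) : ℕ × ℕ) ∈ Finset.HasAntidiagonal.antidiagonal j by simp),
        Nat.choose_zero_right, mul_one] at h3
      refine (Nat.even_add.1 h3).2 (Finset.even_sum _ fun x hx => ?_)
      have hx1 := (Finset.mem_erase.1 hx).1
      have hx2 := Finset.HasAntidiagonal.mem_antidiagonal.1 (Finset.mem_erase.1 hx).2
      have hx3 : x.1 < j := by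
        rcases Nat.lt_or_ge x.1 j with h4 | h4
        · exact h4
        · exact absurd (Prod.ext (show x.1 = j by omega) (show x.2 = 0 by omega)) hx1
      exact (ih x.1 hx3 (by omega)).mul_right _
  rcases h with ⟨j, hj, h⟩ | h
  · exact (Nat.not_odd_iff_even.2 (hlow j hj)) h
  · apply h2
    rw [hv, ← Finset.add_sum_erase _ _
      (show ((2 ^ s, 0) : ℕ × ℕ) ∈ Finset.HasAntidiagonal.antidiagonal (2 ^ s) by simp),
      Nat.choose_zero_right, mul_one]
    refine h.add (Finset.even_sum _ fun x hx => ?_)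
    have hx1 := (Finset.mem_erase.1 hx).1
    have hx2 := Finset.HasAntidiagonal.mem_antidiagonal.1 (Finset.mem_erase.1 hx).2
    have hx3 : x.1 < 2 ^ s := by
      rcases Nat.lt_or_ge x.1 (2 ^ s) with h4 | h4
      · exact h4
      · exact absurd (Prod.ext (show x.1 = 2 ^ s by omega) (show x.2 = 0 by omega)) hx1
    exact (hlow x.1 hx3).mul_right _

end Pool.Agent.Helper41.AC
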