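import Pool.Agent.Helper41.AC.Count
import Pool.Agent.Helper41.AC.Binom
import Pool.Agent.Helper73.QC.Good

/-!
# Points modulo a power of a prime
-/

namespace Pool.Agent.Helper41.AC

open Finset
open Pool.Agent.Helper73.QC (residues Good GoodModulo residues_mul residues_cast)

/-- reduction of the exponents modulo `r` -/
def red (r k : ℕ) [NeZero k] (u : Fin 5 → ZMod (r ^ k)) : Fin 5 → ZMod r :=
  fun i => ZMod.castHom (dvd_pow_self r (NeZero.ne k)) (ZMod r) (u i)

theorem count_lift (r k : ℕ) [hr : Fact r.Prime] [NeZero k] [NeZero (r ^ k)]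
    (P : (Fin 5 → ZMod r) → Prop) [DecidablePred P] :
    (Finset.univ.filter fun u : Fin 5 → ZMod (r ^ k) => P (red r k u)).card * r ^ 5 =
      (Finset.univ.filter P).card * (r ^ k) ^ 5 := by
  classical
  let π : (Fin 5 → ZMod (r ^ k)) →+ (Fin 5 → ZMod r) :=
    { toFun := red r k
      map_zero' := funext fun i => map_zero _
      map_add' := fun u v => funext fun i => map_add _ _ _ }
  have hsurj : Function.Surjective π := by
    intro v
    have h1 := ZMod.castHom_surjective (dvd_pow_self r (NeZero.ne k))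
    choose f hf using h1
    exact ⟨fun i => f (v i), funext fun i => hf (v i)⟩
  set c := (Finset.univ.filter fun u : Fin 5 → ZMod (r ^ k) => π u = 0).card with hc
  have hfib : ∀ v, (Finset.univ.filter fun u : Fin 5 → ZMod (r ^ k) => π u = v).card = c :=
    fun v => AddMonoidHom.card_fiber_eq_of_mem_range π (hsurj v) (hsurj 0)
  have hcount : ∀ Q : (Fin 5 → ZMod r) → Prop, ∀ [DecidablePred Q],
      (Finset.univ.filter fun u : Fin 5 → ZMod (r ^ k) => Q (π u)).card =
        (Finset.univ.filter Q).card * c := by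
    intro Q _
    rw [Finset.card_eq_sum_card_fiberwise (f := π) (t := Finset.univ.filter Q)]
    · rw [Finset.sum_congr rfl (g := fun _ => c), Finset.sum_const, smul_eq_mul]
      intro v hv
      rw [Finset.filter_filter, ← hfib v]
      congr 1
      ext u
      simp only [Finset.mem_filter, Finset.mem_univ, true_and]
      constructor
      · exact fun h => h.2
      · intro h
        rw [h]
        exact ⟨(Finset.mem_filter.1 hv).2, rfl⟩
    · intro u hu
      simp only [Finset.coe_filter, Finset.mem_univ, true_and, Set.mem_ofPred_eq] at hu ⊢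
      exact hu
  have htot := hcount fun _ => True
  simp only [Finset.filter_true] at htot
  rw [Finset.card_univ, Finset.card_univ, Fintype.card_fun, Fintype.card_fun, Fintype.card_fin,
    ZMod.card, ZMod.card] at htot
  have h1 := hcount P
  change (Finset.univ.filter fun u : Fin 5 → ZMod (r ^ k) => P (π u)).card * r ^ 5 = _
  rw [h1, htot]
  ring

theorem residues_red {r k : ℕ} [NeZero k] (u : Fin 5 → ZMod (r ^ k)) (v : Fin 5 → ℤ)
    (h : ∀ i, ((v i : ℤ) : ZMod (r ^ k)) = u i) (i : Fin 10) :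
    ((residues v i : ℤ) : ZMod r) = residues (red r k u) i := by
  rw [← residues_cast]
  congr 1
  funext j
  rw [red, ← h j, map_intCast]

/-- All the multiples of a point which is neither degenerate nor exceptional satisfy the
criterion. -/
theorem good_multiple {r k s t : ℕ} [hr : Fact r.Prime] [NeZero k] (hr2 : r ≠ 2)
    (hst : r - 1 = 2 ^ (s + 1) * t) (ht : Odd t) {g : (ZMod r)ˣ} (hg : orderOf g = r - 1)
    {u : Fin 5 → ZMod (r ^ k)} (hdeg : ∀ i, residues (red r k u) i ≠ 0)
    (hexc : ¬ Exceptional g (2 ^ s) (red r k u)) (j : ZMod (r ^ k)) :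
    (∀ i, j * u i = 0) ∨ GoodModulo fun i => j * u i := by
  have hn : r ^ k ≠ 0 := pow_ne_zero _ hr.out.ne_zero
  have : NeZero (r ^ k) := ⟨hn⟩
  by_cases hj : j = 0
  · left
    intro i
    rw [hj, zero_mul]
  right
  -- discrete logarithms
  have hgen : ∀ x : (ZMod r)ˣ, ∃ a : ℕ, g ^ a = x := by
    intro x
    have h1 : Subgroup.zpowers g = ⊤ := by
      apply Subgroup.eq_top_of_card_eq
      rw [Nat.card_zpowers, hg, Nat.card_eq_fintype_card, ZMod.card_units]
    exact (mem_powers_iff_mem_zpowers).2 (by rw [h1]; exact Subgroup.mem_top x)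
  have hlog : ∀ i, ∃ a : ℕ, g ^ a = Units.mk0 _ (hdeg i) := fun i => hgen _
  choose α hα using hlog
  have hα' : ∀ i, residues (red r k u) i = ((g ^ α i : (ZMod r)ˣ) : ZMod r) := fun i => by
    rw [hα]
    rfl
  have hcrit : (∃ j < 2 ^ s, Odd (∑ i, (α i).choose j)) ∨ Even (∑ i, (α i).choose (2 ^ s)) := by
    by_contra hc
    push Not at hc
    exact hexc ⟨α, hα', isExc_of (fun j hj => Nat.not_odd_iff_even.1 (hc.1 j hj))
      (Nat.not_even_iff_odd.1 hc.2)⟩
  -- the multiplier
  have hj0 : j.val ≠ 0 := fun h => hj ((ZMod.val_eq_zero j).1 h)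
  obtain ⟨e, y, hy, hjy⟩ := Nat.exists_eq_pow_mul_and_not_dvd hj0 r hr.out.ne_one
  have hek : e < k := by
    by_contra hek
    push Not at hek
    have h1 := ZMod.val_lt j
    rw [hjy] at h1
    have h2 : r ^ k ≤ r ^ e := Nat.pow_le_pow_right hr.out.pos hek
    have h3 : y ≠ 0 := fun h => hy (h ▸ dvd_zero r)
    have h4 : r ^ e * 1 ≤ r ^ e * y := Nat.mul_le_mul_left _ (Nat.one_le_iff_ne_zero.2 h3)
    omega
  have hy0 : (y : ZMod r) ≠ 0 := fun h => hy ((ZMod.natCast_eq_zero_iff _ _).1 h)
  obtain ⟨β, hβ⟩ := hgen (Units.mk0 _ hy0)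
  have hβ' : (y : ZMod r) = ((g ^ β : (ZMod r)ˣ) : ZMod r) := by
    rw [hβ]
    rfl
  refine ⟨r, k - e, r ^ e, fun i => y * ((u i).val : ℤ), hr.out, hr2, by omega, ?_, ?_, s, t, g,
    fun i => α i + β, hst, ht, hg, ?_, shift β hcrit⟩
  · rw [← pow_add]
    congr 1
    omega
  · intro i
    have h1 : (j : ZMod (r ^ k)) = ((r ^ e * y : ℕ) : ZMod (r ^ k)) := by
      rw [← hjy, ZMod.natCast_zmod_val]
    rw [h1]
    push_cast
    rw [ZMod.natCast_zmod_val]
    ring
  · intro i
    have h1 : residues (fun i => (y : ℤ) * ((u i).val : ℤ)) i =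
        y * residues (fun i => ((u i).val : ℤ)) i := residues_mul _ _ _
    rw [h1, Int.cast_mul, residues_red u (fun i => ((u i).val : ℤ)) (fun i => by
      rw [Int.cast_natCast, ZMod.natCast_zmod_val]), hα', pow_add, Int.cast_natCast, hβ',
      Units.val_pow_eq_pow_val, Units.val_pow_eq_pow_val, mul_comm]

end Pool.Agent.Helper41.AC
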