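import Pool.Agent.Helper41.AC.BalSimple
import Pool.Agent.Helper41.AC.Lift
import Pool.Agent.Helper41.AC.HalfMod

/-!
# Multiples of points which are not balanced
-/

namespace Pool.Agent.Helper41.AC

open Finset
open Pool.Agent.Helper73.QC (residues residues_mul residues_cast)

theorem IsBal.all {m : ℕ} (hm : 0 < m) {α : Fin 10 → ℕ} (h : IsBal m α) (w : ℕ) :
    (Finset.univ.filter fun i => α i % (2 * m) = w % (2 * m)).card =
      (Finset.univ.filter fun i => α i % (2 * m) = (w + m) % (2 * m)).card := by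
  have hw := Nat.mod_lt w (show 0 < 2 * m by omega)
  have h1 : (w + m) % (2 * m) = (w % (2 * m) + m) % (2 * m) := by
    rw [Nat.add_mod, Nat.add_mod (w % (2 * m)) m, Nat.mod_mod]
  rw [h1]
  by_cases hlt : w % (2 * m) < m
  · rw [Nat.mod_eq_of_lt (show w % (2 * m) + m < 2 * m by omega)]
    exact h _ hlt
  · have h2 : w % (2 * m) + m = (w % (2 * m) - m) + 2 * m := by omega
    rw [h2, Nat.add_mod_right, Nat.mod_eq_of_lt (show w % (2 * m) - m < 2 * m by omega)]
    have h3 := h (w % (2 * m) - m) (by omega)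
    rw [h3]
    congr 2
    funext i
    rw [show w % (2 * m) - m + m = w % (2 * m) by omega]

theorem isBal_shift {m : ℕ} (hm : 0 < m) {α : Fin 10 → ℕ} (β : ℕ)
    (h : IsBal m fun i => α i + β) : IsBal m α := by
  intro v hv
  have h1 := h.all hm (v + β)
  have h2 : ∀ w i, (α i + β) % (2 * m) = (w + β) % (2 * m) ↔ α i % (2 * m) = w % (2 * m) := by
    intro w i
    constructor
    · intro h3
      exact Nat.ModEq.add_right_cancel' β h3
    · intro h3
      exact Nat.ModEq.add_right β h3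
  have h3 : v + β + m = v + m + β := by ring
  rw [h3] at h1
  simp only [h2] at h1
  rw [Nat.mod_eq_of_lt (show v < 2 * m by omega), Nat.mod_eq_of_lt (show v + m < 2 * m by omega)]
    at h1
  exact h1

/-- All the multiples of a point which is neither degenerate nor balanced satisfy the
criterion. -/
theorem bal_multiple {r k s t : ℕ} [hr : Fact r.Prime] [NeZero k] (hr2 : r ≠ 2)
    (hst : r - 1 = 2 ^ (s + 1) * t) (ht : Odd t) {g : (ZMod r)ˣ} (hg : orderOf g = r - 1)
    {u : Fin 5 → ZMod (r ^ k)} (hdeg : ∀ i, residues (red r k u) i ≠ 0)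
    (hexc : ¬ Balanced g (2 ^ s) (red r k u)) (j : ZMod (r ^ k)) :
    (∀ i, j * u i = 0) ∨ NotBalMod fun i => j * u i := by
  have hn : r ^ k ≠ 0 := pow_ne_zero _ hr.out.ne_zero
  have : NeZero (r ^ k) := ⟨hn⟩
  by_cases hj : j = 0
  · left
    intro i
    rw [hj, zero_mul]
  right
  -- discrete logarithms
  have hgen : ∀ x : (ZMod r)ˣ, ∃ a : ℕ, g ^ a = x := by
    intro x
    have h1 : Subgroup.zpowers g = ⊤ := by
      apply Subgroup.eq_top_of_card_eq
      rw [Nat.card_zpowers, hg, Nat.card_eq_fintype_card, ZMod.card_units]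
    exact (mem_powers_iff_mem_zpowers).2 (by rw [h1]; exact Subgroup.mem_top x)
  have hlog : ∀ i, ∃ a : ℕ, g ^ a = Units.mk0 _ (hdeg i) := fun i => hgen _
  choose α hα using hlog
  have hα' : ∀ i, residues (red r k u) i = ((g ^ α i : (ZMod r)ˣ) : ZMod r) := fun i => by
    rw [hα]
    rfl
  have hcrit : ¬ IsBal (2 ^ s) α := fun hc => hexc ⟨α, hα', hc⟩
  -- the multiplier
  have hj0 : j.val ≠ 0 := fun h => hj ((ZMod.val_eq_zero j).1 h)
  obtain ⟨e, y, hy, hjy⟩ := Nat.exists_eq_pow_mul_and_not_dvd hj0 r hr.out.ne_one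
  have hek : e < k := by
    by_contra hek
    push Not at hek
    have h1 := ZMod.val_lt j
    rw [hjy] at h1
    have h2 : r ^ k ≤ r ^ e := Nat.pow_le_pow_right hr.out.pos hek
    have h3 : y ≠ 0 := fun h => hy (h ▸ dvd_zero r)
    have h4 : r ^ e * 1 ≤ r ^ e * y := Nat.mul_le_mul_left _ (Nat.one_le_iff_ne_zero.2 h3)
    omega
  have hy0 : (y : ZMod r) ≠ 0 := fun h => hy ((ZMod.natCast_eq_zero_iff _ _).1 h)
  obtain ⟨β, hβ⟩ := hgen (Units.mk0 _ hy0)
  have hβ' : (y : ZMod r) = ((g ^ β : (ZMod r)ˣ) : ZMod r) := by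
    rw [hβ]
    rfl
  refine ⟨r, k - e, r ^ e, fun i => y * ((u i).val : ℤ), hr.out, hr2, by omega, ?_, ?_, s, t, g,
    fun i => α i + β, hst, ht, hg, ?_, fun hc => hcrit (isBal_shift (by positivity) β hc)⟩
  · rw [← pow_add]
    congr 1
    omega
  · intro i
    have h1 : (j : ZMod (r ^ k)) = ((r ^ e * y : ℕ) : ZMod (r ^ k)) := by
      rw [← hjy, ZMod.natCast_zmod_val]
    rw [h1]
    push_cast
    rw [ZMod.natCast_zmod_val]
    ring
  · intro i
    have h1 : residues (fun i => (y : ℤ) * ((u i).val : ℤ)) i =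
        y * residues (fun i => ((u i).val : ℤ)) i := residues_mul _ _ _
    rw [h1, Int.cast_mul, residues_red u (fun i => ((u i).val : ℤ)) (fun i => by
      rw [Int.cast_natCast, ZMod.natCast_zmod_val]), hα', pow_add, Int.cast_natCast, hβ',
      Units.val_pow_eq_pow_val, Units.val_pow_eq_pow_val, mul_comm]

theorem transfer {r k : ℕ} [hr : Fact r.Prime] [NeZero k] {P : (Fin 5 → ZMod r) → Prop}
    [DecidablePred P] {D : (Fin 5 → ZMod (r ^ k)) → Prop} (h : ∀ u, D u → P (red r k u)) {b : ℝ}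
    (hb : ((Finset.univ.filter P).card : ℝ) ≤ b * (r : ℝ) ^ 5) :
    (Nat.card {u // D u} : ℝ) ≤ b * ((r : ℝ) ^ k) ^ 5 := by
  classical
  have : NeZero (r ^ k) := ⟨pow_ne_zero _ hr.out.ne_zero⟩
  have hlift := count_lift r k P
  have hle : Nat.card {u // D u} ≤
      (Finset.univ.filter fun u : Fin 5 → ZMod (r ^ k) => P (red r k u)).card := by
    rw [Nat.card_eq_fintype_card, Fintype.card_subtype]
    refine Finset.card_le_card fun u hu => ?_
    rw [Finset.mem_filter] at hu ⊢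
    exact ⟨Finset.mem_univ _, h u hu.2⟩
  have hr0 : (0 : ℝ) < (r : ℝ) ^ 5 := by
    have : (0 : ℝ) < r := by exact_mod_cast hr.out.pos
    positivity
  have h3 : ((Finset.univ.filter fun u : Fin 5 → ZMod (r ^ k) => P (red r k u)).card : ℝ) *
      (r : ℝ) ^ 5 = ((Finset.univ.filter P).card : ℝ) * ((r : ℝ) ^ k) ^ 5 := by
    exact_mod_cast hlift
  have h5 : (Nat.card {u // D u} : ℝ) ≤
      ((Finset.univ.filter fun u : Fin 5 → ZMod (r ^ k) => P (red r k u)).card : ℝ) := by
    exact_mod_cast hle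
  refine h5.trans (le_of_mul_le_mul_right ?_ hr0)
  rw [h3]
  calc _ ≤ (b * (r : ℝ) ^ 5) * ((r : ℝ) ^ k) ^ 5 := by gcongr
    _ = _ := by ring

end Pool.Agent.Helper41.AC
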