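import Pool.Agent.Helper41.AC.Sign

/-!
# The number of exceptional points over a finite field
-/

namespace Pool.Agent.Helper41.AC

open Finset
open Pool.Agent.Helper73.QC (residues)

variable {F : Type} [Field F] [Fintype F] [DecidableEq F] {m t : ℕ}

/-- the exceptional points -/
def Exceptional (g : Fˣ) (m : ℕ) (u : Fin 5 → F) : Prop :=
  ∃ α : Fin 10 → ℕ, (∀ i, residues u i = ((g ^ α i : Fˣ) : F)) ∧ IsExc m α

omit [Fintype F] [DecidableEq F] in
theorem residues_add (u v : Fin 5 → F) (i : Fin 10) :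
    residues (u + v) i = residues u i + residues v i := by
  fin_cases i <;> simp [residues] <;> ring

/-- a direction which changes a residue -/
def dir : Fin 10 → Fin 5 := ![0, 1, 2, 3, 4, 0, 2, 0, 1, 0]

omit [Fintype F] [DecidableEq F] in
theorem residues_single (y : F) (i : Fin 10) (h : residues (Pi.single (dir i) y) i = 0) :
    y = 0 := by
  fin_cases i <;> simpa [residues, dir] using h

theorem card_zero (i : Fin 10) :
    (Finset.univ.filter fun u : Fin 5 → F => residues u i = 0).card ≤ Fintype.card F ^ 4 := by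
  have h1 : (Finset.univ.filter fun u : Fin 5 → F => residues u i = 0).card * Fintype.card F ≤
      Fintype.card F ^ 4 * Fintype.card F := by
    rw [← pow_succ]
    have h2 : Fintype.card F ^ (4 + 1) = (Finset.univ : Finset (Fin 5 → F)).card := by
      rw [Finset.card_univ, Fintype.card_fun, Fintype.card_fin]
    rw [h2, ← Finset.card_univ (α := F), ← Finset.card_product]
    refine Finset.card_le_card_of_injOn (fun x => x.1 + Pi.single (dir i) x.2)
      (fun x _ => Finset.mem_coe.2 (Finset.mem_univ _)) ?_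
    rintro ⟨u, y⟩ hu ⟨v, z⟩ hv h
    have hu' : residues u i = 0 :=
      (Finset.mem_filter.1 (Finset.mem_product.1 (Finset.mem_coe.1 hu)).1).2
    have hv' : residues v i = 0 :=
      (Finset.mem_filter.1 (Finset.mem_product.1 (Finset.mem_coe.1 hv)).1).2
    simp only at h
    have h3 : residues (Pi.single (dir i) (y - z)) i = 0 := by
      have h4 : u + Pi.single (dir i) (y - z) = v := by
        rw [Pi.single_sub]
        rw [← add_sub_assoc, h, add_sub_cancel_right]
      have h5 := residues_add u (Pi.single (dir i) (y - z)) i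
      rw [h4, hu', hv', zero_add] at h5
      exact h5.symm
    have h4 := residues_single _ i h3
    have h5 : y = z := sub_eq_zero.1 h4
    subst h5
    rw [add_left_inj] at h
    rw [h]
  exact Nat.le_of_mul_le_mul_right h1 Fintype.card_pos

theorem card_deg :
    (Finset.univ.filter fun u : Fin 5 → F => ¬ ∀ i, residues u i ≠ 0).card ≤
      10 * Fintype.card F ^ 4 := by
  classical
  have h1 : (Finset.univ.filter fun u : Fin 5 → F => ¬ ∀ i, residues u i ≠ 0) ⊆
      Finset.univ.biUnion fun i : Fin 10 =>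
        Finset.univ.filter fun u : Fin 5 → F => residues u i = 0 := by
    intro u hu
    have h2 := (Finset.mem_filter.1 hu).2
    push Not at h2
    obtain ⟨i, hi⟩ := h2
    exact Finset.mem_biUnion.2 ⟨i, Finset.mem_univ _, Finset.mem_filter.2 ⟨Finset.mem_univ _, hi⟩⟩
  refine (Finset.card_le_card h1).trans (Finset.card_biUnion_le.trans ?_)
  calc _ ≤ ∑ _i : Fin 10, Fintype.card F ^ 4 := Finset.sum_le_sum fun i _ => card_zero i
    _ = _ := by simp

theorem count_exc {g : Fˣ} (hm : 0 < m) (hg : orderOf g = Fintype.card F - 1)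
    (hq : Fintype.card F - 1 = 2 * m * t) [DecidablePred (Exceptional g m)] :
    (((nondeg F).filter (Exceptional g m)).card : ℝ) ≤
      evenCount m / (2 * m ^ 10) * (Fintype.card F : ℝ) ^ 5 +
        m ^ 5 * Real.sqrt (2 * (Fintype.card F : ℝ) ^ 9) := by
  have hgen : ∀ x : Fˣ, x ∈ Subgroup.zpowers g := by
    intro x
    have h1 : Subgroup.zpowers g = ⊤ := by
      apply Subgroup.eq_top_of_card_eq
      rw [Nat.card_zpowers, hg, Nat.card_eq_fintype_card, card_units]
    rw [h1]
    exact Subgroup.mem_top x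
  obtain ⟨ζ, hζ⟩ : ∃ ζ : ℂ, IsPrimitiveRoot ζ (2 * m) :=
    ⟨_, Complex.isPrimitiveRoot_exp (2 * m) (by omega)⟩
  have hζu : IsUnit ζ := hζ.isUnit (by omega)
  have hmem : hζu.unit ∈ rootsOfUnity (Fintype.card Fˣ) ℂ := by
    rw [mem_rootsOfUnity, card_units, hq]
    ext
    rw [Units.val_pow_eq_pow_val, IsUnit.unit_spec, pow_mul, hζ.pow_eq_one, one_pow,
      Units.val_one]
  set τ : MulChar F ℂ := MulChar.ofRootOfUnity hmem hgen with hτd
  have hτ : τ g = ζ := by
    rw [hτd, MulChar.ofRootOfUnity_spec, IsUnit.unit_spec]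
  have hlog : ∀ u ∈ nondeg F, ∃ α : Fin 10 → ℕ, ∀ i, residues u i = ((g ^ α i : Fˣ) : F) := by
    intro u hu
    have hu' : ∀ i, residues u i ≠ 0 := (Finset.mem_filter.1 hu).2
    have h1 : ∀ i, ∃ a : ℕ, g ^ a = Units.mk0 _ (hu' i) := by
      intro i
      exact (mem_powers_iff_mem_zpowers).2 (hgen _)
    choose α hα using h1
    exact ⟨α, fun i => by rw [hα]; rfl⟩
  classical
  have hval : ∀ u ∈ nondeg F, sexc τ m ζ (residues u) = if Exceptional g m u then 1 else 0 := by
    intro u hu
    obtain ⟨α, hα⟩ := hlog u hu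
    have h1 : ∀ β : Fin 10 → ℕ, (∀ i, residues u i = ((g ^ β i : Fˣ) : F)) →
        sexc τ m ζ (residues u) = if IsExc m β then 1 else 0 := by
      intro β hβ
      rw [show residues u = fun i => ((g ^ β i : Fˣ) : F) from funext hβ]
      exact sexc_eq τ hm hζ hτ β
    split_ifs with h
    · obtain ⟨β, hβ, hβ'⟩ := h
      rw [h1 β hβ, if_pos hβ']
    · rw [h1 α hα, if_neg fun h2 => h ⟨α, hα, h2⟩]
  have hsum : ∑ u ∈ nondeg F, sexc τ m ζ (residues u) =
      (((nondeg F).filter (Exceptional g m)).card : ℂ) := by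
    rw [Finset.sum_congr rfl hval, Finset.sum_boole]
  have key := equi (sexc_repr τ hm hζ) (sum_exc hm hg hq fun α => sexc_eq τ hm hζ hτ α)
  rw [hsum] at key
  have h1 : ((((nondeg F).filter (Exceptional g m)).card : ℂ) -
      (evenCount m / (2 * m ^ 10) : ℂ) * (nondeg F).card) =
        (((((nondeg F).filter (Exceptional g m)).card : ℝ) -
      (evenCount m / (2 * m ^ 10) : ℝ) * (nondeg F).card : ℝ) : ℂ) := by
    push_cast
    rfl
  rw [h1, Complex.norm_real, Real.norm_eq_abs] at key
  have h2 := (abs_le.1 key).2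
  have h3 : ((nondeg F).card : ℝ) ≤ (Fintype.card F : ℝ) ^ 5 := by
    have h4 := Finset.card_le_univ (nondeg F)
    rw [Fintype.card_fun, Fintype.card_fin] at h4
    exact_mod_cast h4
  have h4 : (0 : ℝ) ≤ evenCount m / (2 * m ^ 10) := by positivity
  nlinarith [mul_le_mul_of_nonneg_left h3 h4]

/-- The number of points which are degenerate or exceptional. -/
theorem count_bad {g : Fˣ} (hm : 0 < m) (hg : orderOf g = Fintype.card F - 1)
    (hq : Fintype.card F - 1 = 2 * m * t)
    [DecidablePred fun u : Fin 5 → F => (∀ i, residues u i ≠ 0) → Exceptional g m u] :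
    ((Finset.univ.filter fun u : Fin 5 → F =>
      (∀ i, residues u i ≠ 0) → Exceptional g m u).card : ℝ) ≤
      (evenCount m / (2 * m ^ 10) + m ^ 5 * Real.sqrt (2 / Fintype.card F) +
        10 / Fintype.card F) * (Fintype.card F : ℝ) ^ 5 := by
  classical
  set q : ℝ := (Fintype.card F : ℝ) with hqd
  have hq1 : 1 ≤ q := by
    rw [hqd]
    exact_mod_cast Fintype.card_pos (α := F)
  have hq0 : 0 < q := by linarith
  have h1 : (Finset.univ.filter fun u : Fin 5 → F =>
      (∀ i, residues u i ≠ 0) → Exceptional g m u) ⊆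
      (Finset.univ.filter fun u : Fin 5 → F => ¬ ∀ i, residues u i ≠ 0) ∪
        ((nondeg F).filter (Exceptional g m)) := by
    intro u hu
    have h2 := (Finset.mem_filter.1 hu).2
    rw [Finset.mem_union]
    by_cases h : ∀ i, residues u i ≠ 0
    · right
      exact Finset.mem_filter.2 ⟨Finset.mem_filter.2 ⟨Finset.mem_univ _, h⟩, h2 h⟩
    · left
      exact Finset.mem_filter.2 ⟨Finset.mem_univ _, h⟩
  have h2 := (Finset.card_le_card h1).trans (Finset.card_union_le _ _)
  have h3 : ((Finset.univ.filter fun u : Fin 5 → F =>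
      (∀ i, residues u i ≠ 0) → Exceptional g m u).card : ℝ) ≤
      10 * q ^ 4 + (evenCount m / (2 * m ^ 10) * q ^ 5 + m ^ 5 * Real.sqrt (2 * q ^ 9)) := by
    have h4 : ((Finset.univ.filter fun u : Fin 5 → F =>
      (∀ i, residues u i ≠ 0) → Exceptional g m u).card : ℝ) ≤
        ((Finset.univ.filter fun u : Fin 5 → F => ¬ ∀ i, residues u i ≠ 0).card : ℝ) +
          (((nondeg F).filter (Exceptional g m)).card : ℝ) := by exact_mod_cast h2
    have h5 : ((Finset.univ.filter fun u : Fin 5 → F => ¬ ∀ i, residues u i ≠ 0).card : ℝ) ≤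
        10 * q ^ 4 := by
      have := card_deg (F := F)
      rw [hqd]
      exact_mod_cast this
    exact h4.trans (add_le_add h5 (count_exc hm hg hq))
  have h6 : Real.sqrt (2 * q ^ 9) = Real.sqrt (2 / q) * q ^ 5 := by
    have h7 : 2 * q ^ 9 = 2 / q * (q ^ 5) ^ 2 := by
      field_simp
    rw [h7, Real.sqrt_mul (by positivity), Real.sqrt_sq (by positivity)]
  refine h3.trans (le_of_eq ?_)
  rw [h6]
  field_simp
  ring

end Pool.Agent.Helper41.AC
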