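import Pool.Agent.Helper41.AC.Exc

/-!
# The mean of the indicator function of the exceptional patterns
-/

namespace Pool.Agent.Helper41.AC

open Finset
open Pool.Agent.Helper73.QC (residues)

/-- the number of sequences of ten elements of `Fin m` in which each element occurs an even number
of times -/
def evenCount (m : ℕ) : ℕ :=
  (Finset.univ.filter fun c : Fin 10 → Fin m => ∀ i, Even (Finset.univ.filter fun j => c j = c i).card).card

variable {F : Type} [Field F] [Fintype F] [DecidableEq F] {m t : ℕ}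

/-- the exponent -/
def ex (x : Fin t × Fin 2 × Fin m) : ℕ := m * (2 * x.1 + x.2.1) + x.2.2

theorem ex_div (x : Fin t × Fin 2 × Fin m) : ex x / m = 2 * x.1 + x.2.1 := by
  have hm : 0 < m := x.2.2.pos
  rw [ex, Nat.mul_add_div hm, Nat.div_eq_of_lt x.2.2.isLt, add_zero]

theorem ex_mod (x : Fin t × Fin 2 × Fin m) : ex x % m = x.2.2 := by
  rw [ex, Nat.mul_add_mod, Nat.mod_eq_of_lt x.2.2.isLt]

theorem ex_inj {x y : Fin t × Fin 2 × Fin m} (h : ex x = ex y) : x = y := by
  have h1 := ex_div x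
  have h2 := ex_mod x
  rw [h, ex_div] at h1
  rw [h, ex_mod] at h2
  obtain ⟨a, b, c⟩ := x
  obtain ⟨a', b', c'⟩ := y
  have hb := b.isLt
  have hb' := b'.isLt
  simp only at h1 h2
  have e1 : a = a' := Fin.ext (by omega)
  have e2 : b = b' := Fin.ext (by omega)
  have e3 : c = c' := Fin.ext (by omega)
  rw [e1, e2, e3]

theorem ex_lt (x : Fin t × Fin 2 × Fin m) : ex x < 2 * m * t := by
  obtain ⟨a, b, c⟩ := x
  have ha := a.isLt
  have hb := b.isLt
  have hc := c.isLt
  simp only [ex]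
  have h1 : 2 * (a : ℕ) + b + 1 ≤ 2 * t := by omega
  have h2 : m * (2 * (a : ℕ) + b + 1) ≤ m * (2 * t) := Nat.mul_le_mul_left m h1
  nlinarith

theorem card_units : Fintype.card Fˣ = Fintype.card F - 1 := by
  rw [Fintype.card_units]

theorem bij {g : Fˣ} (hg : orderOf g = Fintype.card F - 1) (hq : Fintype.card F - 1 = 2 * m * t) :
    Function.Bijective fun x : Fin t × Fin 2 × Fin m => g ^ ex x := by
  rw [Fintype.bijective_iff_injective_and_card]
  constructor
  · intro x y h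
    apply ex_inj
    have h1 := pow_injOn_Iio_orderOf (x := g) (x₁ := ex x) (x₂ := ex y)
      (by rw [hg, hq]; exact ex_lt x) (by rw [hg, hq]; exact ex_lt y) h
    exact h1
  · rw [card_units, hq, Fintype.card_prod, Fintype.card_prod, Fintype.card_fin, Fintype.card_fin,
      Fintype.card_fin]
    ring

theorem sum_torus_units (f : (Fin 10 → F) → ℂ) :
    ∑ x ∈ torus F, f x = ∑ y : Fin 10 → Fˣ, f fun l => (y l : F) := by
  refine (Finset.sum_bij (fun (y : Fin 10 → Fˣ) _ => fun l => (y l : F)) ?_ ?_ ?_ ?_).symm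
  · intro y _
    simp [torus]
  · intro y _ z _ h
    funext l
    exact Units.ext (congrFun h l)
  · intro x hx
    have hx' : ∀ i, x i ≠ 0 := (Finset.mem_filter.1 hx).2
    exact ⟨fun l => Units.mk0 (x l) (hx' l), Finset.mem_univ _, rfl⟩
  · intro y _
    rfl

theorem sum_torus_eq {g : Fˣ} (hg : orderOf g = Fintype.card F - 1)
    (hq : Fintype.card F - 1 = 2 * m * t) (f : (Fin 10 → F) → ℂ) :
    ∑ x ∈ torus F, f x = ∑ a : Fin 10 → Fin t, ∑ b : Fin 10 → Fin 2, ∑ c : Fin 10 → Fin m,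
      f fun l => ((g ^ ex (a l, b l, c l) : Fˣ) : F) := by
  rw [sum_torus_units]
  have h1 : ∑ y : Fin 10 → Fˣ, f (fun l => (y l : F)) =
      ∑ x : Fin 10 → Fin t × Fin 2 × Fin m, f (fun l => ((g ^ ex (x l) : Fˣ) : F)) := by
    refine (Fintype.sum_bijective (fun (x : Fin 10 → Fin t × Fin 2 × Fin m) l => g ^ ex (x l))
      ?_ _ _ fun x => rfl).symm
    exact (Function.Bijective.piMap fun _ => bij hg hq)
  rw [h1]
  have h2 : ∑ x : Fin 10 → Fin t × Fin 2 × Fin m, f (fun l => ((g ^ ex (x l) : Fˣ) : F)) =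
      ∑ z : (Fin 10 → Fin t) × (Fin 10 → Fin 2) × (Fin 10 → Fin m),
        f fun l => ((g ^ ex (z.1 l, z.2.1 l, z.2.2 l) : Fˣ) : F) := by
    refine Fintype.sum_bijective (fun x : Fin 10 → Fin t × Fin 2 × Fin m =>
      ((fun l => (x l).1, fun l => (x l).2.1, fun l => (x l).2.2) :
        (Fin 10 → Fin t) × (Fin 10 → Fin 2) × (Fin 10 → Fin m))) ?_ _ _ fun x => rfl
    constructor
    · intro x y h
      funext l
      have e1 := congrFun (congrArg Prod.fst h) l
      have e2 := congrFun (congrArg (fun w => w.2.1) h) l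
      have e3 := congrFun (congrArg (fun w => w.2.2) h) l
      exact Prod.ext e1 (Prod.ext e2 e3)
    · rintro ⟨a, b, c⟩
      exact ⟨fun l => (a l, b l, c l), rfl⟩
  rw [h2, Fintype.sum_prod_type]
  refine Finset.sum_congr rfl fun a _ => ?_
  rw [Fintype.sum_prod_type]

theorem sum_bits : ∑ b : Fin 10 → Fin 2, ((1 : ℂ) / 2 + (-1 / 2) * ∏ l, (-1 : ℂ) ^ (b l : ℕ)) =
    2 ^ 10 / 2 := by
  rw [Finset.sum_add_distrib, ← Finset.mul_sum]
  have h2 := Finset.prod_univ_sum (fun _ : Fin 10 => (Finset.univ : Finset (Fin 2)))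
    (fun _ x => (-1 : ℂ) ^ (x : ℕ))
  rw [Fintype.piFinset_univ] at h2
  rw [← h2]
  simp
  norm_num

theorem isExc_iff {a : Fin 10 → Fin t} {b : Fin 10 → Fin 2} {c : Fin 10 → Fin m} :
    IsExc m (fun l => ex (a l, b l, c l)) ↔
      (∀ i, Even (Finset.univ.filter fun j => c j = c i).card) ∧ Odd (∑ l, (b l : ℕ)) := by
  rw [IsExc]
  simp only [ex_mod, ex_div]
  have h1 : ∑ l, (2 * (a l : ℕ) + (b l : ℕ)) = 2 * ∑ l, (a l : ℕ) + ∑ l, (b l : ℕ) := by
    rw [Finset.sum_add_distrib, Finset.mul_sum]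
  rw [h1, Nat.odd_add]
  have h2 : (Odd (2 * ∑ l, (a l : ℕ)) ↔ Even (∑ l, (b l : ℕ))) ↔ Odd (∑ l, (b l : ℕ)) := by
    have h3 : ¬ Odd (2 * ∑ l, (a l : ℕ)) := by
      rw [Nat.not_odd_iff_even]
      exact even_two_mul _
    rw [iff_false_left h3, Nat.not_even_iff_odd]
  rw [h2]
  simp only [Fin.val_inj]

theorem sum_exc [DecidablePred (IsExc m)] {g : Fˣ} (hm : 0 < m)
    (hg : orderOf g = Fintype.card F - 1) (hq : Fintype.card F - 1 = 2 * m * t)
    {f : (Fin 10 → F) → ℂ}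
    (hf : ∀ α : Fin 10 → ℕ, f (fun l => ((g ^ α l : Fˣ) : F)) = if IsExc m α then 1 else 0) :
    ∑ x ∈ torus F, f x = (evenCount m / (2 * m ^ 10) : ℂ) * (torus F).card := by
  have hcard : ((torus F).card : ℂ) = (2 * m * t) ^ 10 := by
    have h1 := sum_torus_units (F := F) fun _ => 1
    rw [Finset.sum_const, Finset.sum_const, Finset.card_univ, Fintype.card_fun, card_units, hq,
      Fintype.card_fin, nsmul_eq_mul, mul_one, nsmul_eq_mul, mul_one] at h1
    rw [h1]
    push_cast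
    rfl
  rw [sum_torus_eq hg hq, hcard]
  simp only [hf]
  have h1 : ∀ (a : Fin 10 → Fin t) (b : Fin 10 → Fin 2) (c : Fin 10 → Fin m),
      (if IsExc m (fun l => ex (a l, b l, c l)) then (1 : ℂ) else 0) =
        (if ∀ i, Even (Finset.univ.filter fun j => c j = c i).card then 1 else 0) *
          (1 / 2 + (-1 / 2) * ∏ l, (-1 : ℂ) ^ (b l : ℕ)) := by
    intro a b c
    rw [Finset.prod_pow_eq_pow_sum]
    by_cases h : ∀ i, Even (Finset.univ.filter fun j => c j = c i).card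
    · rw [if_pos h]
      rcases Nat.even_or_odd (∑ l, (b l : ℕ)) with h2 | h2
      · rw [if_neg fun h3 => (Nat.not_odd_iff_even.2 h2) (isExc_iff.1 h3).2, h2.neg_one_pow]
        norm_num
      · rw [if_pos (isExc_iff.2 ⟨h, h2⟩), h2.neg_one_pow]
        norm_num
    · rw [if_neg h, if_neg fun h3 => h (isExc_iff.1 h3).1, zero_mul]
  simp only [h1]
  have h2 : ∀ b : Fin 10 → Fin 2, ∑ c : Fin 10 → Fin m,
      (if ∀ i, Even (Finset.univ.filter fun j => c j = c i).card then (1 : ℂ) else 0) *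
          (1 / 2 + (-1 / 2) * ∏ l, (-1 : ℂ) ^ (b l : ℕ)) =
      (evenCount m : ℂ) * (1 / 2 + (-1 / 2) * ∏ l, (-1 : ℂ) ^ (b l : ℕ)) := by
    intro b
    rw [← Finset.sum_mul, Finset.sum_boole, evenCount]
  simp only [h2]
  rw [Finset.sum_const, ← Finset.mul_sum, sum_bits, Finset.card_univ, Fintype.card_fun,
    Fintype.card_fin, Fintype.card_fin, nsmul_eq_mul]
  have h3 : (m : ℂ) ≠ 0 := Nat.cast_ne_zero.2 hm.ne'
  push_cast
  field_simp

end Pool.Agent.Helper41.AC
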