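import Pool.Agent.Helper41.AC.BalFun
import Pool.Agent.Helper41.AC.Mean
import Pool.Agent.Helper41.AC.Count

/-!
# The number of balanced points over a finite field
-/

namespace Pool.Agent.Helper41.AC

open Finset
open Pool.Agent.Helper73.QC (residues)

/-- the number of sequences of ten signed elements of `Fin m` in which each element occurs as often
with the sign `0` as with the sign `1` -/
def balancedCount (m : ℕ) : ℕ :=
  (Finset.univ.filter fun c : Fin 10 → Fin m × Fin 2 => ∀ x,
    (Finset.univ.filter fun j => c j = (x, 0)).card =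
      (Finset.univ.filter fun j => c j = (x, 1)).card).card

variable {F : Type} [Field F] [Fintype F] [DecidableEq F] {m t : ℕ}

theorem ex_mod₂ (x : Fin t × Fin 2 × Fin m) : ex x % (2 * m) = m * x.2.1 + x.2.2 := by
  obtain ⟨a, b, c⟩ := x
  have hb := b.isLt
  have hc := c.isLt
  have h1 : ex (a, b, c) = m * b + c + 2 * m * a := by
    simp only [ex]
    ring
  have h2 : m * (b : ℕ) + c < 2 * m := by
    have h3 : m * (b : ℕ) ≤ m * 1 := Nat.mul_le_mul_left m (by omega)
    omega
  rw [h1, Nat.add_mul_mod_self_left, Nat.mod_eq_of_lt h2]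

theorem isBal_iff {a : Fin 10 → Fin t} {b : Fin 10 → Fin 2} {c : Fin 10 → Fin m} :
    IsBal m (fun l => ex (a l, b l, c l)) ↔
      ∀ x, (Finset.univ.filter fun j => (c j, b j) = (x, (0 : Fin 2))).card =
        (Finset.univ.filter fun j => (c j, b j) = (x, (1 : Fin 2))).card := by
  rw [IsBal]
  simp only [ex_mod₂]
  have h0 : ∀ x : Fin m, (Finset.univ.filter fun j => m * (b j : ℕ) + (c j : ℕ) = (x : ℕ)) =
      Finset.univ.filter fun j => (c j, b j) = (x, (0 : Fin 2)) := by
    intro x
    ext j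
    have hx := x.isLt
    have hc := (c j).isLt
    have hb := (b j).isLt
    simp only [Finset.mem_filter, Finset.mem_univ, true_and, Prod.mk.injEq]
    constructor
    · intro h
      have hb0 : (b j : ℕ) = 0 := by
        by_contra hne
        have : (b j : ℕ) = 1 := by omega
        rw [this, mul_one] at h
        omega
      rw [hb0, mul_zero, zero_add] at h
      exact ⟨Fin.ext h, Fin.ext hb0⟩
    · rintro ⟨h1, h2⟩
      rw [h1, h2]
      simp
  have h1 : ∀ x : Fin m, (Finset.univ.filter fun j => m * (b j : ℕ) + (c j : ℕ) = (x : ℕ) + m) =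
      Finset.univ.filter fun j => (c j, b j) = (x, (1 : Fin 2)) := by
    intro x
    ext j
    have hx := x.isLt
    have hc := (c j).isLt
    have hb := (b j).isLt
    simp only [Finset.mem_filter, Finset.mem_univ, true_and, Prod.mk.injEq]
    constructor
    · intro h
      have hb1 : (b j : ℕ) = 1 := by
        by_contra hne
        have : (b j : ℕ) = 0 := by omega
        rw [this, mul_zero] at h
        omega
      rw [hb1, mul_one] at h
      exact ⟨Fin.ext (by omega), Fin.ext hb1⟩
    · rintro ⟨h1, h2⟩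
      rw [h1, h2]
      simp
      omega
  constructor
  · intro h x
    rw [← h0, ← h1]
    exact h x x.isLt
  · intro h v hv
    have := h ⟨v, hv⟩
    rw [← h0, ← h1] at this
    exact this

theorem sum_bal [DecidablePred (IsBal m)] {g : Fˣ} (hm : 0 < m)
    (hg : orderOf g = Fintype.card F - 1) (hq : Fintype.card F - 1 = 2 * m * t)
    {f : (Fin 10 → F) → ℂ}
    (hf : ∀ α : Fin 10 → ℕ, f (fun l => ((g ^ α l : Fˣ) : F)) = if IsBal m α then 1 else 0) :
    ∑ x ∈ torus F, f x = (balancedCount m / (2 * m) ^ 10 : ℂ) * (torus F).card := by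
  classical
  have hcard : ((torus F).card : ℂ) = (2 * m * t) ^ 10 := by
    have h1 := sum_torus_units (F := F) fun _ => 1
    rw [Finset.sum_const, Finset.sum_const, Finset.card_univ, Fintype.card_fun, card_units, hq,
      Fintype.card_fin, nsmul_eq_mul, mul_one, nsmul_eq_mul, mul_one] at h1
    rw [h1]
    push_cast
    rfl
  rw [sum_torus_eq hg hq, hcard]
  simp only [hf]
  have h1 : ∀ (a : Fin 10 → Fin t), ∑ b : Fin 10 → Fin 2, ∑ c : Fin 10 → Fin m,
      (if IsBal m (fun l => ex (a l, b l, c l)) then (1 : ℂ) else 0) = balancedCount m := by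
    intro a
    simp only [isBal_iff]
    rw [← Fintype.sum_prod_type' (f := fun (b : Fin 10 → Fin 2) (c : Fin 10 → Fin m) =>
      if ∀ x, (Finset.univ.filter fun j => (c j, b j) = (x, (0 : Fin 2))).card =
        (Finset.univ.filter fun j => (c j, b j) = (x, (1 : Fin 2))).card then (1 : ℂ) else 0)]
    rw [balancedCount, ← Finset.sum_boole]
    refine Fintype.sum_bijective (fun (z : (Fin 10 → Fin 2) × (Fin 10 → Fin m)) =>
      ((fun l => (z.2 l, z.1 l)) : Fin 10 → Fin m × Fin 2)) ?_ _ _ fun z => rfl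
    constructor
    · intro x y h
      refine Prod.ext ?_ ?_
      · funext l
        exact congrArg Prod.snd (congrFun h l)
      · funext l
        exact congrArg Prod.fst (congrFun h l)
    · intro c
      exact ⟨(fun l => (c l).2, fun l => (c l).1), rfl⟩
  simp only [h1]
  rw [Finset.sum_const, Finset.card_univ, Fintype.card_fun, Fintype.card_fin, Fintype.card_fin,
    nsmul_eq_mul]
  have h3 : (m : ℂ) ≠ 0 := Nat.cast_ne_zero.2 hm.ne'
  push_cast
  field_simp

/-- the balanced points -/
def Balanced (g : Fˣ) (m : ℕ) (u : Fin 5 → F) : Prop :=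
  ∃ α : Fin 10 → ℕ, (∀ i, residues u i = ((g ^ α i : Fˣ) : F)) ∧ IsBal m α

theorem count_bal {g : Fˣ} (hm : 0 < m) (hg : orderOf g = Fintype.card F - 1)
    (hq : Fintype.card F - 1 = 2 * m * t) [DecidablePred (Balanced g m)] :
    (((nondeg F).filter (Balanced g m)).card : ℝ) ≤
      balancedCount m / (2 * m) ^ 10 * (Fintype.card F : ℝ) ^ 5 +
        (2 * m) ^ 5 * Real.sqrt (2 * (Fintype.card F : ℝ) ^ 9) := by
  have hgen : ∀ x : Fˣ, x ∈ Subgroup.zpowers g := by
    intro x
    have h1 : Subgroup.zpowers g = ⊤ := by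
      apply Subgroup.eq_top_of_card_eq
      rw [Nat.card_zpowers, hg, Nat.card_eq_fintype_card, card_units]
    rw [h1]
    exact Subgroup.mem_top x
  obtain ⟨ζ, hζ⟩ : ∃ ζ : ℂ, IsPrimitiveRoot ζ (2 * m) :=
    ⟨_, Complex.isPrimitiveRoot_exp (2 * m) (by omega)⟩
  obtain ⟨ρ, hρ⟩ : ∃ ρ : ℂ, IsPrimitiveRoot ρ 11 :=
    ⟨_, Complex.isPrimitiveRoot_exp 11 (by norm_num)⟩
  have hρn : ‖ρ‖ = 1 := Complex.norm_eq_one_of_pow_eq_one hρ.pow_eq_one (by norm_num)
  have hζu : IsUnit ζ := hζ.isUnit (by omega)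
  have hmem : hζu.unit ∈ rootsOfUnity (Fintype.card Fˣ) ℂ := by
    rw [mem_rootsOfUnity, card_units, hq]
    ext
    rw [Units.val_pow_eq_pow_val, IsUnit.unit_spec, pow_mul, hζ.pow_eq_one, one_pow,
      Units.val_one]
  set τ : MulChar F ℂ := MulChar.ofRootOfUnity hmem hgen with hτd
  have hτ : τ g = ζ := by
    rw [hτd, MulChar.ofRootOfUnity_spec, IsUnit.unit_spec]
  have hlog : ∀ u ∈ nondeg F, ∃ α : Fin 10 → ℕ, ∀ i, residues u i = ((g ^ α i : Fˣ) : F) := by
    intro u hu
    have hu' : ∀ i, residues u i ≠ 0 := (Finset.mem_filter.1 hu).2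
    have h1 : ∀ i, ∃ a : ℕ, g ^ a = Units.mk0 _ (hu' i) := by
      intro i
      exact (mem_powers_iff_mem_zpowers).2 (hgen _)
    choose α hα using h1
    exact ⟨α, fun i => by rw [hα]; rfl⟩
  classical
  have hval : ∀ u ∈ nondeg F, bexc τ m ζ ρ (residues u) = if Balanced g m u then 1 else 0 := by
    intro u hu
    obtain ⟨α, hα⟩ := hlog u hu
    have h1 : ∀ β : Fin 10 → ℕ, (∀ i, residues u i = ((g ^ β i : Fˣ) : F)) →
        bexc τ m ζ ρ (residues u) = if IsBal m β then 1 else 0 := by
      intro β hβ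
      rw [show residues u = fun i => ((g ^ β i : Fˣ) : F) from funext hβ]
      exact bexc_eq τ hm hζ hρ hτ β
    split_ifs with h
    · obtain ⟨β, hβ, hβ'⟩ := h
      rw [h1 β hβ, if_pos hβ']
    · rw [h1 α hα, if_neg fun h2 => h ⟨α, hα, h2⟩]
  have hsum : ∑ u ∈ nondeg F, bexc τ m ζ ρ (residues u) =
      (((nondeg F).filter (Balanced g m)).card : ℂ) := by
    rw [Finset.sum_congr rfl hval, Finset.sum_boole]
  have key := equi (bexc_repr τ hm hζ hρn) (sum_bal hm hg hq fun α => bexc_eq τ hm hζ hρ hτ α)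
  rw [hsum] at key
  have h1 : ((((nondeg F).filter (Balanced g m)).card : ℂ) -
      (balancedCount m / (2 * m) ^ 10 : ℂ) * (nondeg F).card) =
        (((((nondeg F).filter (Balanced g m)).card : ℝ) -
      (balancedCount m / (2 * m) ^ 10 : ℝ) * (nondeg F).card : ℝ) : ℂ) := by
    push_cast
    rfl
  rw [h1, Complex.norm_real, Real.norm_eq_abs] at key
  have h2 := (abs_le.1 key).2
  have h3 : ((nondeg F).card : ℝ) ≤ (Fintype.card F : ℝ) ^ 5 := by
    have h4 := Finset.card_le_univ (nondeg F)
    rw [Fintype.card_fun, Fintype.card_fin] at h4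
    exact_mod_cast h4
  have h4 : (0 : ℝ) ≤ balancedCount m / (2 * m) ^ 10 := by positivity
  nlinarith [mul_le_mul_of_nonneg_left h3 h4]

/-- The number of points which are degenerate or balanced. -/
theorem count_bal_bad {g : Fˣ} (hm : 0 < m) (hg : orderOf g = Fintype.card F - 1)
    (hq : Fintype.card F - 1 = 2 * m * t)
    [DecidablePred fun u : Fin 5 → F => (∀ i, residues u i ≠ 0) → Balanced g m u] :
    ((Finset.univ.filter fun u : Fin 5 → F =>
      (∀ i, residues u i ≠ 0) → Balanced g m u).card : ℝ) ≤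
      (balancedCount m / (2 * m) ^ 10 + (2 * m) ^ 5 * Real.sqrt (2 / Fintype.card F) +
        10 / Fintype.card F) * (Fintype.card F : ℝ) ^ 5 := by
  classical
  set q : ℝ := (Fintype.card F : ℝ) with hqd
  have hq1 : 1 ≤ q := by
    rw [hqd]
    exact_mod_cast Fintype.card_pos (α := F)
  have hq0 : 0 < q := by linarith
  have h1 : (Finset.univ.filter fun u : Fin 5 → F =>
      (∀ i, residues u i ≠ 0) → Balanced g m u) ⊆
      (Finset.univ.filter fun u : Fin 5 → F => ¬ ∀ i, residues u i ≠ 0) ∪
        ((nondeg F).filter (Balanced g m)) := by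
    intro u hu
    have h2 := (Finset.mem_filter.1 hu).2
    rw [Finset.mem_union]
    by_cases h : ∀ i, residues u i ≠ 0
    · right
      exact Finset.mem_filter.2 ⟨Finset.mem_filter.2 ⟨Finset.mem_univ _, h⟩, h2 h⟩
    · left
      exact Finset.mem_filter.2 ⟨Finset.mem_univ _, h⟩
  have h2 := (Finset.card_le_card h1).trans (Finset.card_union_le _ _)
  have h3 : ((Finset.univ.filter fun u : Fin 5 → F =>
      (∀ i, residues u i ≠ 0) → Balanced g m u).card : ℝ) ≤
      10 * q ^ 4 + (balancedCount m / (2 * m) ^ 10 * q ^ 5 +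
        (2 * m) ^ 5 * Real.sqrt (2 * q ^ 9)) := by
    have h4 : ((Finset.univ.filter fun u : Fin 5 → F =>
      (∀ i, residues u i ≠ 0) → Balanced g m u).card : ℝ) ≤
        ((Finset.univ.filter fun u : Fin 5 → F => ¬ ∀ i, residues u i ≠ 0).card : ℝ) +
          (((nondeg F).filter (Balanced g m)).card : ℝ) := by exact_mod_cast h2
    have h5 : ((Finset.univ.filter fun u : Fin 5 → F => ¬ ∀ i, residues u i ≠ 0).card : ℝ) ≤
        10 * q ^ 4 := by
      have := card_deg (F := F)
      rw [hqd]
      exact_mod_cast this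
    exact h4.trans (add_le_add h5 (count_bal hm hg hq))
  have h6 : Real.sqrt (2 * q ^ 9) = Real.sqrt (2 / q) * q ^ 5 := by
    have h7 : 2 * q ^ 9 = 2 / q * (q ^ 5) ^ 2 := by
      field_simp
    rw [h7, Real.sqrt_mul (by positivity), Real.sqrt_sq (by positivity)]
  refine h3.trans (le_of_eq ?_)
  rw [h6]
  field_simp
  ring

end Pool.Agent.Helper41.AC
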