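import Pool.Agent.Helper41.AC.Count

/-!
# An explicit bound for the number of exceptional points
-/

namespace Pool.Agent.Helper41.AC

open Finset
open Pool.Agent.Helper73.QC (residues)

variable {F : Type} [Field F] [Fintype F] [DecidableEq F] {m t : ℕ}

/-- a direction which changes the residue `j ≠ 0` and not the residue `0` -/
def dir' : Fin 10 → Fin 5 := ![1, 1, 2, 3, 4, 1, 2, 2, 1, 1]

omit [Fintype F] [DecidableEq F] in
theorem residues_single' (y : F) {j : Fin 10} (hj : j ≠ 0) :
    (residues (Pi.single (dir' j) y) j = y ∨ residues (Pi.single (dir' j) y) j = -y) ∧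
      residues (Pi.single (dir' j) y) 0 = 0 := by
  fin_cases j
  · exact absurd rfl hj
  all_goals simp [residues, dir']

theorem card_line {j : Fin 10} (hj : j ≠ 0) (h : F) :
    (Finset.univ.filter fun u : Fin 5 → F => residues u j = h * residues u 0).card ≤
      Fintype.card F ^ 4 := by
  have h1 : (Finset.univ.filter fun u : Fin 5 → F => residues u j = h * residues u 0).card *
      Fintype.card F ≤ Fintype.card F ^ 4 * Fintype.card F := by
    rw [← pow_succ]
    have h2 : Fintype.card F ^ (4 + 1) = (Finset.univ : Finset (Fin 5 → F)).card := by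
      rw [Finset.card_univ, Fintype.card_fun, Fintype.card_fin]
    rw [h2, ← Finset.card_univ (α := F), ← Finset.card_product]
    refine Finset.card_le_card_of_injOn (fun x => x.1 + Pi.single (dir' j) x.2)
      (fun x _ => Finset.mem_coe.2 (Finset.mem_univ _)) ?_
    rintro ⟨u, y⟩ hu ⟨v, z⟩ hv h'
    have hu' : residues u j = h * residues u 0 :=
      (Finset.mem_filter.1 (Finset.mem_product.1 (Finset.mem_coe.1 hu)).1).2
    have hv' : residues v j = h * residues v 0 :=
      (Finset.mem_filter.1 (Finset.mem_product.1 (Finset.mem_coe.1 hv)).1).2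
    simp only at h'
    have h4 : u + Pi.single (dir' j) (y - z) = v := by
      rw [Pi.single_sub]
      rw [← add_sub_assoc, h', add_sub_cancel_right]
    obtain ⟨h5, h6⟩ := residues_single' (y - z) hj
    have h7 := residues_add u (Pi.single (dir' j) (y - z)) j
    have h8 := residues_add u (Pi.single (dir' j) (y - z)) 0
    rw [h4] at h7 h8
    rw [h6, add_zero] at h8
    rw [hv', hu', h8] at h7
    have h9 : residues (Pi.single (dir' j) (y - z)) j = 0 := by
      linear_combination - h7
    have h10 : y - z = 0 := by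
      rcases h5 with h5 | h5
      · rw [← h5, h9]
      · rw [← neg_eq_zero, ← h5, h9]
    have h11 : y = z := sub_eq_zero.1 h10
    subst h11
    rw [add_left_inj] at h'
    rw [h']
  exact Nat.le_of_mul_le_mul_right h1 Fintype.card_pos

omit [Fintype F] [DecidableEq F] in
/-- For an exceptional point the quotient of two residues is a power. -/
theorem exceptional_imp {g : Fˣ} {u : Fin 5 → F} (h : Exceptional g m u) :
    ∃ j : Fin 10, j ≠ 0 ∧ ∃ e : ℤ, residues u j = ((g ^ (m * e) : Fˣ) : F) * residues u 0 := by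
  obtain ⟨α, hα, h1, -⟩ := h
  have h2 := h1 0
  obtain ⟨j, hj, hj0⟩ : ∃ j, α j % m = α 0 % m ∧ j ≠ 0 := by
    by_contra hno
    push Not at hno
    have h3 : (Finset.univ.filter fun j => α j % m = α 0 % m) = {0} := by
      ext j
      simp only [Finset.mem_filter, Finset.mem_univ, true_and, Finset.mem_singleton]
      exact ⟨hno j, fun h => by rw [h]⟩
    rw [h3, Finset.card_singleton] at h2
    exact absurd h2 (by decide)
  have h3 : (m : ℤ) ∣ (α j : ℤ) - α 0 := by
    rw [← Int.modEq_iff_dvd, Int.natCast_modEq_iff]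
    exact hj.symm
  obtain ⟨e, he⟩ := h3
  refine ⟨j, hj0, e, ?_⟩
  rw [hα, hα, ← Units.val_mul, ← zpow_natCast, ← zpow_natCast, ← zpow_add]
  congr 2
  linarith

theorem count_simple {g : Fˣ} (hm : 0 < m) (hg : orderOf g = Fintype.card F - 1)
    (hq : Fintype.card F - 1 = 2 * m * t)
    [DecidablePred fun u : Fin 5 → F => (∀ i, residues u i ≠ 0) → Exceptional g m u] :
    ((Finset.univ.filter fun u : Fin 5 → F =>
      (∀ i, residues u i ≠ 0) → Exceptional g m u).card : ℝ) ≤
      (9 / m + 10 / Fintype.card F) * (Fintype.card F : ℝ) ^ 5 := by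
  classical
  set q : ℕ := Fintype.card F with hqd
  have hqpos : 0 < q := Fintype.card_pos
  -- the powers
  set H : Finset F := (Finset.range (2 * t)).image fun e : ℕ => ((g ^ (m * e) : Fˣ) : F) with hH
  have hHcard : H.card ≤ 2 * t := by
    refine Finset.card_image_le.trans ?_
    rw [Finset.card_range]
  have ht : 0 < t := by
    rcases Nat.eq_zero_or_pos t with h | h
    · exfalso
      have := Fintype.one_lt_card (α := F)
      rw [h, mul_zero] at hq
      omega
    · exact h
  have hHmem : ∀ e : ℤ, ((g ^ ((m : ℤ) * e) : Fˣ) : F) ∈ H := by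
    intro e
    have h2t : (0 : ℤ) < 2 * t := by positivity
    refine Finset.mem_image.2 ⟨(e % (2 * t : ℤ)).toNat, ?_, ?_⟩
    · rw [Finset.mem_range]
      have h1 := Int.emod_lt_of_pos e h2t
      have h2 := Int.emod_nonneg e h2t.ne'
      omega
    · congr 1
      have h2 := Int.emod_nonneg e h2t.ne'
      rw [← zpow_natCast]
      push_cast
      rw [Int.toNat_of_nonneg h2]
      have h3 : (m : ℤ) * e = m * (e % (2 * t : ℤ)) + ((q - 1 : ℕ) : ℤ) * (e / (2 * t : ℤ)) := by
        rw [hq]
        push_cast
        have := Int.emod_add_mul_ediv e (2 * t : ℤ)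
        linear_combination -(m : ℤ) * this
      rw [h3, zpow_add, zpow_mul _ ((q - 1 : ℕ) : ℤ), zpow_natCast, ← hg, pow_orderOf_eq_one,
        one_zpow, mul_one]
  have h1 : (Finset.univ.filter fun u : Fin 5 → F =>
      (∀ i, residues u i ≠ 0) → Exceptional g m u) ⊆
      (Finset.univ.filter fun u : Fin 5 → F => ¬ ∀ i, residues u i ≠ 0) ∪
        ((Finset.univ.erase (0 : Fin 10)).biUnion fun j => H.biUnion fun h =>
          Finset.univ.filter fun u : Fin 5 → F => residues u j = h * residues u 0) := by
    intro u hu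
    have h2 := (Finset.mem_filter.1 hu).2
    rw [Finset.mem_union]
    by_cases h : ∀ i, residues u i ≠ 0
    · right
      obtain ⟨j, hj, e, he⟩ := exceptional_imp (h2 h)
      exact Finset.mem_biUnion.2 ⟨j, Finset.mem_erase.2 ⟨hj, Finset.mem_univ _⟩,
        Finset.mem_biUnion.2 ⟨_, hHmem e, Finset.mem_filter.2 ⟨Finset.mem_univ _, he⟩⟩⟩
    · left
      exact Finset.mem_filter.2 ⟨Finset.mem_univ _, h⟩
  have h2 : (Finset.univ.filter fun u : Fin 5 → F =>
      (∀ i, residues u i ≠ 0) → Exceptional g m u).card ≤ 10 * q ^ 4 + 9 * (2 * t * q ^ 4) := by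
    refine (Finset.card_le_card h1).trans ((Finset.card_union_le _ _).trans
      (add_le_add card_deg ?_))
    refine Finset.card_biUnion_le.trans ?_
    have h3 : ∀ j ∈ Finset.univ.erase (0 : Fin 10), (H.biUnion fun h =>
          Finset.univ.filter fun u : Fin 5 → F => residues u j = h * residues u 0).card ≤
        2 * t * q ^ 4 := by
      intro j hj
      refine Finset.card_biUnion_le.trans ?_
      calc _ ≤ ∑ _h ∈ H, q ^ 4 := Finset.sum_le_sum fun h _ => card_line (Finset.mem_erase.1 hj).1 h
        _ = H.card * q ^ 4 := by rw [Finset.sum_const, smul_eq_mul]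
        _ ≤ _ := Nat.mul_le_mul_right _ hHcard
    refine (Finset.sum_le_sum h3).trans ?_
    rw [Finset.sum_const, Finset.card_erase_of_mem (Finset.mem_univ _), Finset.card_univ,
      Fintype.card_fin, smul_eq_mul]
  have hm' : (0 : ℝ) < m := by exact_mod_cast hm
  have hq' : (0 : ℝ) < q := by exact_mod_cast hqpos
  have h3 : (2 * t : ℝ) ≤ q / m := by
    rw [le_div_iff₀ hm']
    have : 2 * t * m ≤ q := by
      have : 2 * t * m = q - 1 := by rw [hq]; ring
      omega
    exact_mod_cast this
  calc ((Finset.univ.filter fun u : Fin 5 → F =>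
      (∀ i, residues u i ≠ 0) → Exceptional g m u).card : ℝ) ≤
        10 * (q : ℝ) ^ 4 + 9 * (2 * t * (q : ℝ) ^ 4) := by exact_mod_cast h2
    _ ≤ 10 * (q : ℝ) ^ 4 + 9 * (q / m * (q : ℝ) ^ 4) := by gcongr
    _ = _ := by
      field_simp
      ring

end Pool.Agent.Helper41.AC
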