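import Pool.Agent.Helper41.AC.BalMean
import Pool.Agent.Helper41.AC.Simple

/-!
# An explicit bound for the number of balanced points
-/

namespace Pool.Agent.Helper41.AC

open Finset
open Pool.Agent.Helper73.QC (residues)

variable {F : Type} [Field F] [Fintype F] [DecidableEq F] {m t : ℕ}

omit [Fintype F] [DecidableEq F] in
/-- For a balanced point the quotient of two residues is an odd power. -/
theorem balanced_imp {g : Fˣ} {u : Fin 5 → F} (hm : 0 < m) (h : Balanced g m u) :
    ∃ j : Fin 10, j ≠ 0 ∧ ∃ e : ℤ,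
      residues u j = ((g ^ ((m : ℤ) * (2 * e + 1)) : Fˣ) : F) * residues u 0 := by
  obtain ⟨α, hα, h1⟩ := h
  obtain ⟨j, hj0, hj⟩ : ∃ j, j ≠ 0 ∧ (((2 * m : ℕ) : ℤ) ∣ (α j : ℤ) - α 0 - m) := by
    have hlt := Nat.mod_lt (α 0) (show 0 < 2 * m by omega)
    have key : ∀ v w : ℕ, (α 0 % (2 * m) = v) → (Finset.univ.filter fun i => α i % (2 * m) = v).card =
        (Finset.univ.filter fun i => α i % (2 * m) = w).card → v ≠ w →
        ∃ j, j ≠ 0 ∧ α j % (2 * m) = w := by
      intro v w hv hc hvw
      have h2 : 0 < (Finset.univ.filter fun i => α i % (2 * m) = v).card :=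
        Finset.card_pos.2 ⟨0, Finset.mem_filter.2 ⟨Finset.mem_univ _, hv⟩⟩
      rw [hc] at h2
      obtain ⟨j, hj⟩ := Finset.card_pos.1 h2
      have hj' := (Finset.mem_filter.1 hj).2
      refine ⟨j, ?_, hj'⟩
      rintro rfl
      exact hvw (hv.symm.trans hj')
    by_cases hlt' : α 0 % (2 * m) < m
    · obtain ⟨j, hj0, hj⟩ := key _ _ rfl (h1 _ hlt') (by omega)
      refine ⟨j, hj0, (α j / (2 * m) : ℕ) - (α 0 / (2 * m) : ℕ), ?_⟩
      have e1 := Nat.mod_add_div (α j) (2 * m)
      have e2 := Nat.mod_add_div (α 0) (2 * m)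
      rw [hj] at e1
      have e1' : ((α 0 % (2 * m) : ℕ) : ℤ) + m + ((2 * m : ℕ) : ℤ) * ((α j / (2 * m) : ℕ) : ℤ) =
          α j := by exact_mod_cast e1
      have e2' : ((α 0 % (2 * m) : ℕ) : ℤ) + ((2 * m : ℕ) : ℤ) * ((α 0 / (2 * m) : ℕ) : ℤ) =
          α 0 := by exact_mod_cast e2
      linear_combination - e1' + e2'
    · obtain ⟨j, hj0, hj⟩ := key (α 0 % (2 * m) - m + m) (α 0 % (2 * m) - m) (by omega)
        (h1 _ (by omega)).symm (by omega)
      refine ⟨j, hj0, (α j / (2 * m) : ℕ) - (α 0 / (2 * m) : ℕ) - 1, ?_⟩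
      have e1 := Nat.mod_add_div (α j) (2 * m)
      have e2 := Nat.mod_add_div (α 0) (2 * m)
      rw [hj] at e1
      have e1' : ((α 0 % (2 * m) : ℕ) : ℤ) + ((2 * m : ℕ) : ℤ) * ((α j / (2 * m) : ℕ) : ℤ) =
          α j + m := by
        have : α 0 % (2 * m) + 2 * m * (α j / (2 * m)) = α j + m := by omega
        exact_mod_cast this
      have e2' : ((α 0 % (2 * m) : ℕ) : ℤ) + ((2 * m : ℕ) : ℤ) * ((α 0 / (2 * m) : ℕ) : ℤ) =
          α 0 := by exact_mod_cast e2
      have e3 : ((2 * m : ℕ) : ℤ) = 2 * m := by push_cast; rfl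
      linear_combination - e1' + e2' + e3
  obtain ⟨e, he⟩ := hj
  refine ⟨j, hj0, e, ?_⟩
  rw [hα, hα, ← Units.val_mul, ← zpow_natCast, ← zpow_natCast, ← zpow_add]
  congr 2
  push_cast at he
  linear_combination he

theorem count_bal_simple {g : Fˣ} (hm : 0 < m) (hg : orderOf g = Fintype.card F - 1)
    (hq : Fintype.card F - 1 = 2 * m * t)
    [DecidablePred fun u : Fin 5 → F => (∀ i, residues u i ≠ 0) → Balanced g m u] :
    ((Finset.univ.filter fun u : Fin 5 → F =>
      (∀ i, residues u i ≠ 0) → Balanced g m u).card : ℝ) ≤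
      (9 / (2 * m) + 10 / Fintype.card F) * (Fintype.card F : ℝ) ^ 5 := by
  classical
  set q : ℕ := Fintype.card F with hqd
  have hqpos : 0 < q := Fintype.card_pos
  -- the odd powers
  set H : Finset F := (Finset.range t).image fun e : ℕ => ((g ^ (m * (2 * e + 1)) : Fˣ) : F)
    with hH
  have hHcard : H.card ≤ t := by
    refine Finset.card_image_le.trans ?_
    rw [Finset.card_range]
  have ht : 0 < t := by
    rcases Nat.eq_zero_or_pos t with h | h
    · exfalso
      have := Fintype.one_lt_card (α := F)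
      rw [h, mul_zero] at hq
      omega
    · exact h
  have hHmem : ∀ e : ℤ, ((g ^ ((m : ℤ) * (2 * e + 1)) : Fˣ) : F) ∈ H := by
    intro e
    have h2t : (0 : ℤ) < t := by positivity
    refine Finset.mem_image.2 ⟨(e % (t : ℤ)).toNat, ?_, ?_⟩
    · rw [Finset.mem_range]
      have h1 := Int.emod_lt_of_pos e h2t
      have h2 := Int.emod_nonneg e h2t.ne'
      omega
    · congr 1
      have h2 := Int.emod_nonneg e h2t.ne'
      rw [← zpow_natCast]
      push_cast
      rw [Int.toNat_of_nonneg h2]
      have h3 : (m : ℤ) * (2 * e + 1) =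
          m * (2 * (e % (t : ℤ)) + 1) + ((q - 1 : ℕ) : ℤ) * (e / (t : ℤ)) := by
        rw [hq]
        push_cast
        have := Int.emod_add_mul_ediv e (t : ℤ)
        linear_combination -(2 * m : ℤ) * this
      rw [h3, zpow_add, zpow_mul _ ((q - 1 : ℕ) : ℤ), zpow_natCast, ← hg, pow_orderOf_eq_one,
        one_zpow, mul_one]
  have h1 : (Finset.univ.filter fun u : Fin 5 → F =>
      (∀ i, residues u i ≠ 0) → Balanced g m u) ⊆
      (Finset.univ.filter fun u : Fin 5 → F => ¬ ∀ i, residues u i ≠ 0) ∪
        ((Finset.univ.erase (0 : Fin 10)).biUnion fun j => H.biUnion fun h =>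
          Finset.univ.filter fun u : Fin 5 → F => residues u j = h * residues u 0) := by
    intro u hu
    have h2 := (Finset.mem_filter.1 hu).2
    rw [Finset.mem_union]
    by_cases h : ∀ i, residues u i ≠ 0
    · right
      obtain ⟨j, hj, e, he⟩ := balanced_imp hm (h2 h)
      exact Finset.mem_biUnion.2 ⟨j, Finset.mem_erase.2 ⟨hj, Finset.mem_univ _⟩,
        Finset.mem_biUnion.2 ⟨_, hHmem e, Finset.mem_filter.2 ⟨Finset.mem_univ _, he⟩⟩⟩
    · left
      exact Finset.mem_filter.2 ⟨Finset.mem_univ _, h⟩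
  have h2 : (Finset.univ.filter fun u : Fin 5 → F =>
      (∀ i, residues u i ≠ 0) → Balanced g m u).card ≤ 10 * q ^ 4 + 9 * (t * q ^ 4) := by
    refine (Finset.card_le_card h1).trans ((Finset.card_union_le _ _).trans
      (add_le_add card_deg ?_))
    refine Finset.card_biUnion_le.trans ?_
    have h3 : ∀ j ∈ Finset.univ.erase (0 : Fin 10), (H.biUnion fun h =>
          Finset.univ.filter fun u : Fin 5 → F => residues u j = h * residues u 0).card ≤
        t * q ^ 4 := by
      intro j hj
      refine Finset.card_biUnion_le.trans ?_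
      calc _ ≤ ∑ _h ∈ H, q ^ 4 := Finset.sum_le_sum fun h _ => card_line (Finset.mem_erase.1 hj).1 h
        _ = H.card * q ^ 4 := by rw [Finset.sum_const, smul_eq_mul]
        _ ≤ _ := Nat.mul_le_mul_right _ hHcard
    refine (Finset.sum_le_sum h3).trans ?_
    rw [Finset.sum_const, Finset.card_erase_of_mem (Finset.mem_univ _), Finset.card_univ,
      Fintype.card_fin, smul_eq_mul]
  have hm' : (0 : ℝ) < 2 * m := by
    have : (0 : ℝ) < m := by exact_mod_cast hm
    linarith
  have hq' : (0 : ℝ) < q := by exact_mod_cast hqpos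
  have h3 : (t : ℝ) ≤ q / (2 * m) := by
    rw [le_div_iff₀ hm']
    have : t * (2 * m) ≤ q := by
      have : t * (2 * m) = q - 1 := by rw [hq]; ring
      omega
    exact_mod_cast this
  calc ((Finset.univ.filter fun u : Fin 5 → F =>
      (∀ i, residues u i ≠ 0) → Balanced g m u).card : ℝ) ≤
        10 * (q : ℝ) ^ 4 + 9 * (t * (q : ℝ) ^ 4) := by exact_mod_cast h2
    _ ≤ 10 * (q : ℝ) ^ 4 + 9 * (q / (2 * m) * (q : ℝ) ^ 4) := by gcongr
    _ = _ := by
      field_simp
      ring

/-- the sequences of length `n` in which each element occurs as often with both signs -/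
def balSeq (n m : ℕ) : Finset (Fin n → Fin m × Fin 2) :=
  Finset.univ.filter fun c => ∀ x, (Finset.univ.filter fun j => c j = (x, 0)).card =
      (Finset.univ.filter fun j => c j = (x, 1)).card

theorem card_balSeq (n m : ℕ) :
    (balSeq (n + 2) m).card ≤ 2 * m * (n + 1) * (balSeq n m).card := by
  classical
  have h1 : balSeq (n + 2) m ⊆ ((Finset.univ : Finset (Fin m × Fin 2)) ×ˢ
      ((Finset.univ : Finset (Fin (n + 1))) ×ˢ balSeq n m)).image
        fun x => Fin.cons x.1 (Fin.insertNth x.2.1 (x.1.1, 1 - x.1.2) x.2.2 :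
          Fin (n + 1) → Fin m × Fin 2) := by
    intro c hc
    have hc' : ∀ x, (Finset.univ.filter fun j => c j = (x, 0)).card =
      (Finset.univ.filter fun j => c j = (x, 1)).card := (Finset.mem_filter.1 hc).2
    have hcount : ∀ (N : ℕ) (d : Fin N → Fin m × Fin 2) (v : Fin m × Fin 2),
        (Finset.univ.filter fun j => d j = v).card = ∑ j, if d j = v then 1 else 0 := by
      intro N d v
      rw [Finset.card_filter]
    have hcnt : ∀ v, (Finset.univ.filter fun j => c j = v).card =
        (if c 0 = v then 1 else 0) + ∑ j : Fin (n + 1), if c j.succ = v then 1 else 0 := by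
      intro v
      rw [hcount, Fin.sum_univ_succ]
    have hz : ∀ z : Fin 2, z = 0 ∨ z = 1 := by decide
    -- an occurrence of the opposite of the first element
    obtain ⟨j, hj⟩ : ∃ j : Fin (n + 1), c j.succ = ((c 0).1, 1 - (c 0).2) := by
      by_contra hno
      push Not at hno
      have h2 := hc' (c 0).1
      rw [hcnt, hcnt] at h2
      rcases hz (c 0).2 with h3 | h3
      · have h4 : c 0 = ((c 0).1, 0) := Prod.ext rfl h3
        have h5 : ∀ j : Fin (n + 1), c j.succ ≠ ((c 0).1, 1) := by
          intro j hj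
          apply hno j
          rw [hj, h3]
          rfl
        have h6 : ∑ j : Fin (n + 1), (if c j.succ = ((c 0).1, 1) then 1 else 0) = 0 :=
          Finset.sum_eq_zero fun j _ => if_neg (h5 j)
        have h7 : c 0 ≠ ((c 0).1, 1) := by
          intro h
          have h8 : (0 : Fin 2) = 1 := h3.symm.trans (congrArg Prod.snd h)
          exact absurd h8 (by decide)
        rw [h6, if_pos h4, if_neg h7] at h2
        omega
      · have h4 : c 0 = ((c 0).1, 1) := Prod.ext rfl h3
        have h5 : ∀ j : Fin (n + 1), c j.succ ≠ ((c 0).1, 0) := by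
          intro j hj
          apply hno j
          rw [hj, h3]
          rfl
        have h6 : ∑ j : Fin (n + 1), (if c j.succ = ((c 0).1, 0) then 1 else 0) = 0 :=
          Finset.sum_eq_zero fun j _ => if_neg (h5 j)
        have h7 : c 0 ≠ ((c 0).1, 0) := by
          intro h
          have h8 : (1 : Fin 2) = 0 := h3.symm.trans (congrArg Prod.snd h)
          exact absurd h8 (by decide)
        rw [h6, if_pos h4, if_neg h7] at h2
        omega
    refine Finset.mem_image.2 ⟨(c 0, j, fun l => c (j.succAbove l).succ), ?_, ?_⟩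
    · refine Finset.mem_product.2 ⟨Finset.mem_univ _, Finset.mem_product.2 ⟨Finset.mem_univ _,
        Finset.mem_filter.2 ⟨Finset.mem_univ _, fun x => ?_⟩⟩⟩
      have hcnt2 : ∀ v, (Finset.univ.filter fun j => c j = v).card =
          ((if c 0 = v then 1 else 0) + (if ((c 0).1, 1 - (c 0).2) = v then 1 else 0)) +
            (Finset.univ.filter fun l => c (j.succAbove l).succ = v).card := by
        intro v
        rw [hcnt, Fin.sum_univ_succAbove _ j, hj, ← add_assoc,
          ← hcount n (fun l => c (j.succAbove l).succ) v]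
      have h2 := hc' x
      rw [hcnt2, hcnt2] at h2
      have h3 : (if c 0 = (x, 0) then 1 else 0) +
          (if ((c 0).1, 1 - (c 0).2) = (x, (0 : Fin 2)) then 1 else 0) =
          (if c 0 = (x, 1) then 1 else 0) +
          (if ((c 0).1, 1 - (c 0).2) = (x, (1 : Fin 2)) then 1 else 0 : ℕ) := by
        obtain ⟨y, z⟩ := c 0
        simp only [Prod.mk.injEq]
        by_cases hy : y = x
        · rcases hz z with h | h <;> simp [hy, h]
        · simp [hy]
      change (Finset.univ.filter fun l => c (j.succAbove l).succ = (x, 0)).card =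
        (Finset.univ.filter fun l => c (j.succAbove l).succ = (x, 1)).card
      omega
    · funext i
      refine Fin.cases ?_ (fun i => ?_) i
      · rfl
      · simp only [Fin.cons_succ]
        refine Fin.succAboveCases j ?_ (fun l => ?_) i
        · rw [Fin.insertNth_apply_same, hj]
        · rw [Fin.insertNth_apply_succAbove]
  refine (Finset.card_le_card h1).trans (Finset.card_image_le.trans (le_of_eq ?_))
  rw [Finset.card_product, Finset.card_product, Finset.card_univ, Finset.card_univ,
    Fintype.card_prod, Fintype.card_fin, Fintype.card_fin, Fintype.card_fin]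
  ring

theorem balancedCount_le (m : ℕ) : balancedCount m ≤ 945 * (2 * m) ^ 5 := by
  have h0 : balancedCount m ≤ (balSeq 10 m).card := le_of_eq rfl
  have h1 := card_balSeq 8 m
  have h2 := card_balSeq 6 m
  have h3 := card_balSeq 4 m
  have h4 := card_balSeq 2 m
  have h5 := card_balSeq 0 m
  have h6 : (balSeq 0 m).card ≤ 1 := by
    refine (Finset.card_le_univ _).trans ?_
    simp
  norm_num at h1 h2 h3 h4 h5
  calc balancedCount m ≤ 2 * m * 9 * (balSeq 8 m).card := h0.trans h1
    _ ≤ 2 * m * 9 * (2 * m * 7 * (2 * m * 5 * (2 * m * 3 * (2 * m * 1)))) := by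
        refine Nat.mul_le_mul_left _ (h2.trans (Nat.mul_le_mul_left _ (h3.trans
          (Nat.mul_le_mul_left _ (h4.trans (Nat.mul_le_mul_left _ ?_))))))
        refine h5.trans ?_
        exact Nat.mul_le_mul_left _ h6
    _ = 945 * (2 * m) ^ 5 := by ring

end Pool.Agent.Helper41.AC
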