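import Mathlib

/-!
# Square root cancellation along a four-cycle
-/

namespace Pool.Agent.Helper41.AC

open Finset

variable {F : Type} [Field F] [Fintype F] [DecidableEq F]

omit [DecidableEq F] in
theorem norm_unit (χ : MulChar F ℂ) {x : F} (hx : x ≠ 0) : ‖χ x‖ = 1 := by
  have h : (χ x) ^ (Fintype.card F - 1) = 1 := by
    rw [← map_pow, FiniteField.pow_card_sub_one_eq_one x hx, map_one]
  have h1 : Fintype.card F - 1 ≠ 0 := by
    have := Fintype.one_lt_card (α := F)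
    omega
  exact Complex.norm_eq_one_of_pow_eq_one h h1

omit [DecidableEq F] in
theorem norm_le (χ : MulChar F ℂ) (x : F) : ‖χ x‖ ≤ 1 := by
  by_cases hx : x = 0
  · rw [hx, MulChar.map_zero, norm_zero]
    exact zero_le_one
  · exact (norm_unit χ hx).le

omit [DecidableEq F] in
theorem corr {χ : MulChar F ℂ} (hχ : χ ≠ 1) {a b : F} (hab : a ≠ b) :
    ∑ w, χ (w + a) * (starRingEnd ℂ) (χ (w + b)) = -1 := by
  have hc : a - b ≠ 0 := sub_ne_zero.2 hab
  have h1 : ∀ w, χ (w + a) * (starRingEnd ℂ) (χ (w + b)) = χ (w + a) * χ⁻¹ (w + b) := by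
    intro w
    have := MulChar.star_apply' χ (w + b)
    rw [← this]
    rfl
  simp only [h1]
  -- `w = -b - (a - b) x`
  have h2 : ∑ w, χ (w + a) * χ⁻¹ (w + b) =
      ∑ x, χ ((a - b) * (1 - x)) * χ⁻¹ (-(a - b) * x) := by
    refine (Fintype.sum_equiv ((Equiv.mulLeft₀ (a - b) hc).trans (Equiv.subLeft (-b))) _ _ ?_).symm
    intro x
    simp only [Equiv.trans_apply, Equiv.mulLeft₀_apply, Equiv.subLeft_apply]
    congr 2 <;> ring
  rw [h2]
  have h3 : ∀ x, χ ((a - b) * (1 - x)) * χ⁻¹ (-(a - b) * x) =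
      χ⁻¹ (-1) * (χ⁻¹ x * χ (1 - x)) := by
    intro x
    have h4 : χ (a - b) * χ⁻¹ (a - b) = 1 := by
      rw [← MulChar.mul_apply, mul_inv_cancel, MulChar.one_apply (Ne.isUnit hc)]
    rw [map_mul, neg_mul, ← neg_one_mul, map_mul, map_mul]
    linear_combination (χ (1 - x) * χ⁻¹ (-1) * χ⁻¹ x) * h4
  simp only [h3]
  rw [← mul_sum]
  have h5 : ∑ x, χ⁻¹ x * χ (1 - x) = jacobiSum χ⁻¹ χ := rfl
  have h6 := jacobiSum_nontrivial_inv (χ := χ⁻¹) (by rwa [ne_eq, inv_eq_one])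
  rw [inv_inv] at h6
  rw [h5, h6, mul_neg, ← map_mul, neg_one_mul, neg_neg, map_one]

omit [DecidableEq F] in
theorem corr_le (χ : MulChar F ℂ) (a b : F) :
    ‖∑ w, χ (w + a) * (starRingEnd ℂ) (χ (w + b))‖ ≤ Fintype.card F := by
  refine (norm_sum_le _ _).trans ?_
  have : ∀ w ∈ (Finset.univ : Finset F), ‖χ (w + a) * (starRingEnd ℂ) (χ (w + b))‖ ≤ 1 := by
    intro w _
    rw [norm_mul, RCLike.norm_conj]
    exact mul_le_one₀ (norm_le _ _) (norm_nonneg _) (norm_le _ _)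
  refine (Finset.sum_le_sum this).trans ?_
  simp

theorem prod_corr_le {χ : Fin 4 → MulChar F ℂ} (h : ∃ i, χ i ≠ 1) {ε : Fin 4 → F}
    (hε : ∀ i, ε i ≠ 0) (y z : F) :
    ‖∏ i, ∑ w, χ i (w + ε i * y) * (starRingEnd ℂ) (χ i (w + ε i * z))‖ ≤
      if y = z then (Fintype.card F : ℝ) ^ 4 else (Fintype.card F : ℝ) ^ 3 := by
  rw [norm_prod]
  split_ifs with hyz
  · calc _ ≤ ∏ i : Fin 4, (Fintype.card F : ℝ) :=
        Finset.prod_le_prod (fun i _ => norm_nonneg _) fun i _ => corr_le _ _ _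
      _ = _ := by simp
  · obtain ⟨i, hi⟩ := h
    rw [← Finset.mul_prod_erase _ _ (Finset.mem_univ i)]
    have h1 : ‖∑ w, χ i (w + ε i * y) * (starRingEnd ℂ) (χ i (w + ε i * z))‖ = 1 := by
      rw [corr hi (fun h0 => hyz (mul_left_cancel₀ (hε i) h0)), norm_neg, norm_one]
    rw [h1, one_mul]
    calc _ ≤ ∏ i ∈ Finset.univ.erase i, (Fintype.card F : ℝ) :=
        Finset.prod_le_prod (fun i _ => norm_nonneg _) fun i _ => corr_le _ _ _
      _ = _ := by simp [Finset.card_erase_of_mem]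

/-- Square root cancellation along a four-cycle. -/
theorem cycle {χ : Fin 4 → MulChar F ℂ} (h : ∃ i, χ i ≠ 1) {ε : Fin 4 → F}
    (hε : ∀ i, ε i ≠ 0) {g : (Fin 4 → F) → ℂ} (hg : ∀ w, ‖g w‖ ≤ 1)
    (hs : ∀ w y, g (fun i => w i + ε i * y) = g w) :
    ‖∑ w, (∏ i, χ i (w i)) * g w‖ ^ 2 ≤ 2 * (Fintype.card F : ℝ) ^ 7 := by
  set q : ℝ := (Fintype.card F : ℝ) with hq
  have hq0 : 0 < q := by
    rw [hq]
    exact_mod_cast Fintype.card_pos
  set T := ∑ w, (∏ i, χ i (w i)) * g w with hT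
  let S : (Fin 4 → F) → ℂ := fun w => ∑ y, ∏ i, χ i (w i + ε i * y)
  have h1 : (q : ℂ) * T = ∑ w, g w * S w := by
    have h2 : ∀ y : F, T = ∑ w : Fin 4 → F, g w * ∏ i, χ i (w i + ε i * y) := by
      intro y
      rw [hT]
      refine (Fintype.sum_equiv (Equiv.addRight (fun i => ε i * y)) _ _ ?_).symm
      intro w
      have h3 := hs w y
      rw [Equiv.coe_addRight, mul_comm]
      change _ = (∏ i, χ i (w i + ε i * y)) * g (fun i => w i + ε i * y)
      rw [h3]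
    have h3 : (q : ℂ) * T = ∑ y : F, T := by
      rw [Finset.sum_const, Finset.card_univ, nsmul_eq_mul, hq]
      push_cast
      rfl
    rw [h3]
    calc ∑ y : F, T = ∑ y : F, ∑ w : Fin 4 → F, g w * ∏ i, χ i (w i + ε i * y) :=
        Finset.sum_congr rfl fun y _ => h2 y
      _ = _ := by
        rw [Finset.sum_comm]
        refine Finset.sum_congr rfl fun w _ => ?_
        rw [Finset.mul_sum]
  have h4 : q * ‖T‖ ≤ ∑ w, ‖S w‖ := by
    have h5 : q * ‖T‖ = ‖(q : ℂ) * T‖ := by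
      rw [norm_mul, Complex.norm_real, Real.norm_of_nonneg hq0.le]
    rw [h5, h1]
    refine (norm_sum_le _ _).trans (Finset.sum_le_sum fun w _ => ?_)
    rw [norm_mul]
    exact mul_le_of_le_one_left (norm_nonneg _) (hg w)
  have h5 : (∑ w, ‖S w‖) ^ 2 ≤ q ^ 4 * ∑ w, ‖S w‖ ^ 2 := by
    have := sq_sum_le_card_mul_sum_sq (s := (Finset.univ : Finset (Fin 4 → F)))
      (f := fun w => ‖S w‖)
    rw [Finset.card_univ, Fintype.card_fun, Fintype.card_fin] at this
    push_cast at this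
    exact this
  have h6 : ∑ w, ‖S w‖ ^ 2 ≤ 2 * q ^ 5 := by
    have h7 : ((∑ w, ‖S w‖ ^ 2 : ℝ) : ℂ) = ∑ y : F, ∑ z : F,
        ∏ i, ∑ v, χ i (v + ε i * y) * (starRingEnd ℂ) (χ i (v + ε i * z)) := by
      rw [Complex.ofReal_sum]
      calc ∑ w, ((‖S w‖ ^ 2 : ℝ) : ℂ) = ∑ w : Fin 4 → F, ∑ y : F, ∑ z : F,
            ∏ i, χ i (w i + ε i * y) * (starRingEnd ℂ) (χ i (w i + ε i * z)) := by
            refine Finset.sum_congr rfl fun w _ => ?_
            rw [Complex.ofReal_pow, ← Complex.mul_conj']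
            rw [map_sum, Finset.sum_mul]
            refine Finset.sum_congr rfl fun y _ => ?_
            rw [Finset.mul_sum]
            refine Finset.sum_congr rfl fun z _ => ?_
            rw [map_prod, ← Finset.prod_mul_distrib]
        _ = _ := by
            rw [Finset.sum_comm]
            refine Finset.sum_congr rfl fun y _ => ?_
            rw [Finset.sum_comm]
            refine Finset.sum_congr rfl fun z _ => ?_
            rw [Finset.prod_univ_sum]
            simp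
    have h8 : ∑ w, ‖S w‖ ^ 2 = ‖((∑ w, ‖S w‖ ^ 2 : ℝ) : ℂ)‖ := by
      rw [Complex.norm_real, Real.norm_of_nonneg (Finset.sum_nonneg fun w _ => sq_nonneg _)]
    rw [h8, h7]
    calc _ ≤ ∑ y : F, ∑ z : F, (if y = z then q ^ 4 else q ^ 3) :=
          (norm_sum_le _ _).trans (Finset.sum_le_sum fun y _ => (norm_sum_le _ _).trans
            (Finset.sum_le_sum fun z _ => prod_corr_le h hε y z))
      _ ≤ ∑ y : F, ∑ z : F, ((if y = z then q ^ 4 else 0) + q ^ 3) := by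
          refine Finset.sum_le_sum fun y _ => Finset.sum_le_sum fun z _ => ?_
          split_ifs
          · have : 0 ≤ q ^ 3 := by positivity
            linarith
          · simp
      _ = 2 * q ^ 5 := by
          simp only [Finset.sum_add_distrib, Finset.sum_ite_eq, Finset.mem_univ, if_true,
            Finset.sum_const, Finset.card_univ, nsmul_eq_mul]
          rw [← hq]
          ring
  have h9 : (q * ‖T‖) ^ 2 ≤ q ^ 4 * (2 * q ^ 5) := by
    calc (q * ‖T‖) ^ 2 ≤ (∑ w, ‖S w‖) ^ 2 := by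
          apply pow_le_pow_left₀ (by positivity) h4
      _ ≤ q ^ 4 * ∑ w, ‖S w‖ ^ 2 := h5
      _ ≤ _ := by gcongr
  have h10 : q ^ 2 * ‖T‖ ^ 2 ≤ q ^ 2 * (2 * q ^ 7) := by
    calc q ^ 2 * ‖T‖ ^ 2 = (q * ‖T‖) ^ 2 := by ring
      _ ≤ _ := h9
      _ = _ := by ring
  exact le_of_mul_le_mul_left h10 (by positivity)

/-- The sum over a five-dimensional space. -/
theorem cycle_sum {χ : Fin 4 → MulChar F ℂ} (h : ∃ i, χ i ≠ 1) {ε : Fin 4 → F}
    (hε : ∀ i, ε i ≠ 0) {g : F → (Fin 4 → F) → ℂ} (hg : ∀ z w, ‖g z w‖ ≤ 1)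
    (hs : ∀ z w y, g z (fun i => w i + ε i * y) = g z w) :
    ‖∑ z, ∑ w, (∏ i, χ i (w i)) * g z w‖ ^ 2 ≤ 2 * (Fintype.card F : ℝ) ^ 9 := by
  set q : ℝ := (Fintype.card F : ℝ) with hq
  have hq0 : 0 < q := by
    rw [hq]
    exact_mod_cast Fintype.card_pos
  calc _ ≤ (∑ z, ‖∑ w, (∏ i, χ i (w i)) * g z w‖) ^ 2 := by
        apply pow_le_pow_left₀ (norm_nonneg _) (norm_sum_le _ _)
    _ ≤ q * ∑ z, ‖∑ w, (∏ i, χ i (w i)) * g z w‖ ^ 2 := by
        have := sq_sum_le_card_mul_sum_sq (s := (Finset.univ : Finset F))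
          (f := fun z => ‖∑ w, (∏ i, χ i (w i)) * g z w‖)
        rwa [Finset.card_univ] at this
    _ ≤ q * ∑ z : F, 2 * q ^ 7 := by
        gcongr with z
        exact cycle h hε (hg z) (hs z)
    _ = _ := by
        rw [Finset.sum_const, Finset.card_univ, nsmul_eq_mul, ← hq]
        ring

end Pool.Agent.Helper41.AC
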