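import Pool.Agent.Helper41.AC.Mean

/-!
# Sequences in which each element occurs an even number of times
-/

namespace Pool.Agent.Helper41.AC

open Finset

/-- the sequences of length `n` of elements of `Fin m` in which each element occurs an even number
of times -/
def evenSeq (n m : ℕ) : Finset (Fin n → Fin m) :=
  Finset.univ.filter fun c => ∀ v, Even (Finset.univ.filter fun j => c j = v).card

theorem card_evenSeq (n m : ℕ) :
    (evenSeq (n + 2) m).card ≤ m * (n + 1) * (evenSeq n m).card := by
  classical
  have h1 : evenSeq (n + 2) m ⊆ ((Finset.univ : Finset (Fin m)) ×ˢ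
      ((Finset.univ : Finset (Fin (n + 1))) ×ˢ evenSeq n m)).image
        fun x => Fin.cons x.1 (Fin.insertNth x.2.1 x.1 x.2.2 : Fin (n + 1) → Fin m) := by
    intro c hc
    have hc' : ∀ v, Even (Finset.univ.filter fun j => c j = v).card := (Finset.mem_filter.1 hc).2
    have hcount : ∀ (N : ℕ) (d : Fin N → Fin m) (v : Fin m),
        (Finset.univ.filter fun j => d j = v).card = ∑ j, if d j = v then 1 else 0 := by
      intro N d v
      rw [Finset.card_filter]
    -- a second occurrence of the first element
    obtain ⟨j, hj⟩ : ∃ j : Fin (n + 1), c j.succ = c 0 := by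
      by_contra hno
      push Not at hno
      have h2 := hc' (c 0)
      rw [hcount, Fin.sum_univ_succ, if_pos rfl, Finset.sum_eq_zero fun j _ => if_neg (hno j),
        add_zero] at h2
      exact absurd h2 (by decide)
    refine Finset.mem_image.2 ⟨(c 0, j, fun l => c (j.succAbove l).succ), ?_, ?_⟩
    · refine Finset.mem_product.2 ⟨Finset.mem_univ _, Finset.mem_product.2 ⟨Finset.mem_univ _,
        Finset.mem_filter.2 ⟨Finset.mem_univ _, fun v => ?_⟩⟩⟩
      have h2 := hc' v
      rw [hcount, Fin.sum_univ_succ, Fin.sum_univ_succAbove _ j, hj, ← add_assoc,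
        ← hcount n (fun l => c (j.succAbove l).succ) v] at h2
      have h3 : Even ((if c 0 = v then 1 else 0) + (if c 0 = v then 1 else 0) : ℕ) :=
        ⟨_, rfl⟩
      exact (Nat.even_add.1 h2).1 h3
    · funext i
      refine Fin.cases ?_ (fun i => ?_) i
      · rfl
      · simp only [Fin.cons_succ]
        refine Fin.succAboveCases j ?_ (fun l => ?_) i
        · rw [Fin.insertNth_apply_same, hj]
        · rw [Fin.insertNth_apply_succAbove]
  refine (Finset.card_le_card h1).trans (Finset.card_image_le.trans (le_of_eq ?_))
  rw [Finset.card_product, Finset.card_product, Finset.card_univ, Finset.card_univ,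
    Fintype.card_fin, Fintype.card_fin, mul_assoc]

theorem evenCount_le (m : ℕ) : evenCount m ≤ 945 * m ^ 5 := by
  have h0 : evenCount m ≤ (evenSeq 10 m).card := by
    refine Finset.card_le_card fun c hc => ?_
    rw [evenSeq, Finset.mem_filter]
    refine ⟨Finset.mem_univ _, fun v => ?_⟩
    by_cases h : ∃ i, c i = v
    · obtain ⟨i, rfl⟩ := h
      exact (Finset.mem_filter.1 hc).2 i
    · push Not at h
      rw [Finset.filter_false_of_mem fun i _ => h i, Finset.card_empty]
      exact Even.zero
  have h1 := card_evenSeq 8 m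
  have h2 := card_evenSeq 6 m
  have h3 := card_evenSeq 4 m
  have h4 := card_evenSeq 2 m
  have h5 := card_evenSeq 0 m
  have h6 : (evenSeq 0 m).card ≤ 1 := by
    refine (Finset.card_le_univ _).trans ?_
    simp
  norm_num at h1 h2 h3 h4 h5
  calc evenCount m ≤ m * 9 * (evenSeq 8 m).card := h0.trans h1
    _ ≤ m * 9 * (m * 7 * (m * 5 * (m * 3 * (m * 1)))) := by
        refine Nat.mul_le_mul_left _ (h2.trans (Nat.mul_le_mul_left _ (h3.trans
          (Nat.mul_le_mul_left _ (h4.trans (Nat.mul_le_mul_left _ ?_))))))
        refine h5.trans ?_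
        exact Nat.mul_le_mul_left _ h6
    _ = 945 * m ^ 5 := by ring

end Pool.Agent.Helper41.AC
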