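import Pool.Agent.Helper41.AC.Wiener

/-!
# The exceptional patterns
-/

namespace Pool.Agent.Helper41.AC

open Finset

/-- The exceptional patterns. -/
def IsExc (m : ℕ) (α : Fin 10 → ℕ) : Prop :=
  (∀ i, Even (Finset.univ.filter fun j => α j % m = α i % m).card) ∧ Odd (∑ l, α l / m)

variable {F : Type} [Field F] (τ : MulChar F ℂ)

/-- the characters with the exponents `e` -/
noncomputable def cv (e : Fin 10 → ℕ) : Fin 10 → MulChar F ℂ := fun i => τ ^ e i

theorem cv_apply {g : Fˣ} {ζ : ℂ} (hτ : τ g = ζ) (e α : Fin 10 → ℕ) :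
    ∏ i, cv τ e i ((g ^ α i : Fˣ) : F) = ζ ^ ∑ i, e i * α i := by
  rw [← Finset.prod_pow_eq_pow_sum]
  refine Finset.prod_congr rfl fun i _ => ?_
  rw [cv, MulChar.pow_apply_coe, Units.val_pow_eq_pow_val, map_pow, hτ, ← pow_mul, mul_comm]

end Pool.Agent.Helper41.AC
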