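import Pool.Agent.Helper41.AC.Indep
import Pool.Agent.Helper79.QC.Binom

/-!
# Valuations all equal to one half
-/

namespace Pool.Agent.Helper41.AC

open Finset
open Pool.Agent.Helper79.QC (total dvd_total val_neg oddPart mem_oddPart card_oddPart isUnit_of_cast)

theorem isBal_aux {r n k s t : ℕ} [hr : Fact r.Prime] (hn : n = r ^ k) (hk : 0 < k)
    (hst : r - 1 = 2 ^ (s + 1) * t) (ht : Odd t) (a : Fin 10 → ℤ)
    (hsum : ∑ D, a D = 0) (g : (ZMod r)ˣ) (hg : orderOf g = r - 1) (α : Fin 10 → ℕ)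
    (hα : ∀ D, ((a D : ℤ) : ZMod r) = (g : ZMod r) ^ α D)
    (H : Subgroup (ZMod n)ˣ) (hH : Odd (Nat.card H))
    (hall : ∀ h : (ZMod n)ˣ, ∑ᶠ u : H, total n a (u * h) / n = 5 * Nat.card H) :
    IsBal (2 ^ s) α := by
  classical
  have hrp : r.Prime := hr.out
  have : NeZero n := ⟨by rw [hn]; exact pow_ne_zero _ hrp.ne_zero⟩
  have h1 : 1 < n := by rw [hn]; exact Nat.one_lt_pow hk.ne' hrp.one_lt
  have hr2 : r ≠ 2 := by
    rintro rfl
    have h2 : 0 < 2 ^ s := by positivity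
    have h3 := ht.pos
    have h4 : 1 ≤ 2 ^ s * t := Nat.mul_pos h2 h3
    rw [pow_succ] at hst
    have h5 : 2 ^ s * 2 * t = 2 * (2 ^ s * t) := by ring
    omega
  have hrodd : Odd r := hrp.odd_of_ne_two hr2
  have hodd : Odd n := by rw [hn]; exact hrodd.pow
  have hrn : r ∣ n := hn ▸ dvd_pow_self r hk.ne'
  set π := ZMod.unitsMap hrn with hπ
  have hπval : ∀ x : (ZMod n)ˣ, ((π x : (ZMod r)ˣ) : ZMod r) =
      ZMod.castHom hrn (ZMod r) (x : ZMod n) := fun x => rfl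
  obtain ⟨G0, hG0⟩ := ZMod.unitsMap_surjective hrn g
  -- the units
  have hunit : ∀ D, IsUnit ((a D : ℤ) : ZMod n) := by
    intro D
    refine isUnit_of_cast hn hrn ?_
    rw [map_intCast, hα]
    exact pow_ne_zero _ g.ne_zero
  choose A hA using hunit
  have hπA : ∀ D, π (A D) = g ^ α D := by
    intro D
    apply Units.ext
    rw [hπval, hA, map_intCast, hα, Units.val_pow_eq_pow_val]
  set Hm := oddPart hrn t with hHm
  have hmem : ∀ x, x ∈ Hm ↔ (π x) ^ t = 1 := mem_oddPart hrn t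
  have hcard := card_oddPart hn hrn hr2 ht
  have : Fintype Hm := Fintype.ofFinite Hm
  rw [← hHm, Nat.card_eq_fintype_card] at hcard
  -- the function `φ`
  let φ : ℕ → ℤ := fun c => ∑ x : Hm, ((((G0 ^ c * (x : (ZMod n)ˣ) : (ZMod n)ˣ) :
    ZMod n).val : ℕ) : ℤ)
  have htrans : ∀ (F : (ZMod n)ˣ → ℤ) (y : (ZMod n)ˣ), y ∈ Hm →
      ∑ x : Hm, F (y * (x : (ZMod n)ˣ)) = ∑ x : Hm, F (x : (ZMod n)ˣ) := by
    intro F y hy
    exact Fintype.sum_equiv (Equiv.mulLeft (⟨y, hy⟩ : Hm)) _ _ fun x => rfl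
  have hnegmem : -G0 ^ 2 ^ s ∈ Hm := by
    rw [hmem]
    have h2 : π (-G0 ^ 2 ^ s) = - g ^ 2 ^ s := by
      apply Units.ext
      rw [hπval, Units.val_neg, map_neg, ← hπval, map_pow, hG0, Units.val_neg]
    rw [h2, ht.neg_pow, ← pow_mul]
    have h3 : (g ^ (2 ^ s * t)) ^ 2 = 1 := by
      rw [← pow_mul, ← orderOf_dvd_iff_pow_eq_one, hg, hst]
      exact ⟨1, by ring⟩
    have h4 : g ^ (2 ^ s * t) ≠ 1 := by
      intro h
      have h5 := orderOf_dvd_of_pow_eq_one h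
      rw [hg, hst] at h5
      have h6 : 0 < 2 ^ s * t := Nat.mul_pos (by positivity) ht.pos
      have h7 := Nat.le_of_dvd h6 h5
      rw [pow_succ] at h7
      have h8 : 2 ^ s * 2 * t = 2 * (2 ^ s * t) := by ring
      omega
    have h5 : g ^ (2 ^ s * t) = -1 := by
      have h6 : (((g ^ (2 ^ s * t) : (ZMod r)ˣ) : ZMod r) - 1) *
          (((g ^ (2 ^ s * t) : (ZMod r)ˣ) : ZMod r) + 1) = 0 := by
        have h7 := congrArg (fun u : (ZMod r)ˣ => (u : ZMod r)) h3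
        simp only [Units.val_pow_eq_pow_val, Units.val_one] at h7
        rw [Units.val_pow_eq_pow_val]
        linear_combination h7
      rcases mul_eq_zero.1 h6 with h7 | h7
      · exfalso
        apply h4
        apply Units.ext
        rw [Units.val_one]
        linear_combination h7
      · apply Units.ext
        rw [Units.val_neg, Units.val_one]
        linear_combination h7
    rw [h5, neg_neg]
  have hφ : ∀ c, φ (c + 2 ^ s) = (Fintype.card Hm : ℤ) * n - φ c := by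
    intro c
    have h2 : φ (c + 2 ^ s) = ∑ x : Hm, ((((-(G0 ^ c * (x : (ZMod n)ˣ)) : (ZMod n)ˣ) :
        ZMod n).val : ℕ) : ℤ) := by
      rw [← htrans (fun y => ((((-(G0 ^ c * y) : (ZMod n)ˣ) : ZMod n).val : ℕ) : ℤ))
        (-G0 ^ 2 ^ s) hnegmem]
      refine Finset.sum_congr rfl fun x _ => ?_
      congr 3
      rw [pow_add, neg_mul, mul_neg, neg_neg, mul_assoc]
    rw [h2]
    have h3 : ∀ x : Hm, ((((-(G0 ^ c * (x : (ZMod n)ˣ)) : (ZMod n)ˣ) : ZMod n).val : ℕ) : ℤ) =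
        n - ((((G0 ^ c * (x : (ZMod n)ˣ) : (ZMod n)ˣ) : ZMod n).val : ℕ) : ℤ) := by
      intro x
      rw [val_neg h1, Nat.cast_sub (ZMod.val_lt _).le]
    rw [Finset.sum_congr rfl fun x _ => h3 x, Finset.sum_sub_distrib, Finset.sum_const,
      Finset.card_univ, nsmul_eq_mul]
  -- the numbers `N`
  let N : (ZMod n)ˣ → ℕ := fun g => total n a g / n
  have hN : ∀ g, n * N g = total n a g := fun g => Nat.mul_div_cancel' (dvd_total hsum g)
  have hN2 : ∀ g, (n : ℤ) * N g = ∑ D, ((((g * A D : (ZMod n)ˣ) : ZMod n).val : ℕ) : ℤ) := by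
    intro g
    have h2 : ((n * N g : ℕ) : ℤ) = n * N g := by
      rw [Nat.cast_mul]
    rw [← h2, hN, total, Nat.cast_sum]
    refine Finset.sum_congr rfl fun D _ => ?_
    rw [Units.val_mul, hA]
  have hsumN : ∀ c, ∑ x : Hm, (n : ℤ) * (N (G0 ^ c * (x : (ZMod n)ˣ)) : ℤ) =
      ∑ D, φ (c + α D) := by
    intro c
    rw [Finset.sum_congr rfl fun x _ => hN2 _, Finset.sum_comm]
    refine Finset.sum_congr rfl fun D _ => ?_
    have hy : A D * (G0 ^ α D)⁻¹ ∈ Hm := by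
      rw [hmem, map_mul, map_inv, map_pow, hG0, hπA, mul_inv_cancel, one_pow]
    have h2 := htrans (fun y => ((((G0 ^ (c + α D) * y : (ZMod n)ˣ) : ZMod n).val : ℕ) : ℤ))
      _ hy
    change _ = ∑ x : Hm, ((((G0 ^ (c + α D) * (x : (ZMod n)ˣ) : (ZMod n)ˣ) : ZMod n).val : ℕ) :
      ℤ)
    rw [← h2]
    refine Finset.sum_congr rfl fun x _ => ?_
    congr 3
    rw [pow_add]
    have h3 : G0 ^ α D * (A D * (G0 ^ α D)⁻¹ * (x : (ZMod n)ˣ)) = (x : (ZMod n)ˣ) * A D := by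
      rw [mul_comm (A D), mul_assoc, mul_inv_cancel_left, mul_comm]
    rw [mul_assoc (G0 ^ c) (G0 ^ α D), h3, mul_assoc]
  -- the double count
  have : Fintype H := Fintype.ofFinite H
  have hHpos : (0 : ℤ) < Fintype.card H := by exact_mod_cast Fintype.card_pos
  have hHle : ∀ u : H, (u : (ZMod n)ˣ) ∈ Hm := by
    intro u
    rw [hmem]
    have h2 : (π (u : (ZMod n)ˣ)) ^ Nat.card H = 1 := by
      rw [← map_pow]
      have h3 : (u : (ZMod n)ˣ) ^ Nat.card H = 1 := by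
        have h4 : u ^ Nat.card H = 1 := pow_card_eq_one'
        have h5 := congrArg Subtype.val h4
        rwa [Subgroup.coe_pow, Subgroup.coe_one] at h5
      rw [h3, map_one]
    have h3 : (π (u : (ZMod n)ˣ)) ^ (2 ^ (s + 1) * t) = 1 := by
      rw [← hst]
      exact ZMod.units_pow_card_sub_one_eq_one r _
    have h4 : orderOf (π (u : (ZMod n)ˣ)) ∣ 2 ^ (s + 1) * t := orderOf_dvd_of_pow_eq_one h3
    have h5 : Nat.Coprime (orderOf (π (u : (ZMod n)ˣ))) (2 ^ (s + 1)) := by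
      refine Nat.Coprime.pow_right _ ?_
      rw [Nat.coprime_two_right]
      exact hH.of_dvd_nat (orderOf_dvd_of_pow_eq_one h2)
    exact orderOf_dvd_iff_pow_eq_one.1 (h5.dvd_of_dvd_mul_left h4)
  have hsub : ∀ h : (ZMod n)ˣ, ∑ u : H, (N ((u : (ZMod n)ˣ) * h) : ℤ) = 5 * Fintype.card H := by
    intro h
    have h2 := hall h
    rw [finsum_eq_sum_of_fintype, Nat.card_eq_fintype_card] at h2
    exact_mod_cast h2
  have hsumHm : ∀ c, ∑ x : Hm, (N (G0 ^ c * (x : (ZMod n)ˣ)) : ℤ) = 5 * Fintype.card Hm := by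
    intro c
    have h2 : ∑ u : H, ∑ x : Hm, (N ((u : (ZMod n)ˣ) * (G0 ^ c * (x : (ZMod n)ˣ))) : ℤ) =
        Fintype.card H * ∑ x : Hm, (N (G0 ^ c * (x : (ZMod n)ˣ)) : ℤ) := by
      have h3 : ∀ u : H, ∑ x : Hm, (N ((u : (ZMod n)ˣ) * (G0 ^ c * (x : (ZMod n)ˣ))) : ℤ) =
          ∑ x : Hm, (N (G0 ^ c * (x : (ZMod n)ˣ)) : ℤ) := by
        intro u
        rw [← htrans (fun y => (N (G0 ^ c * y) : ℤ)) u (hHle u)]
        refine Finset.sum_congr rfl fun x _ => ?_
        rw [mul_left_comm]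
      rw [Finset.sum_congr rfl fun u _ => h3 u, Finset.sum_const, Finset.card_univ, nsmul_eq_mul]
    rw [Finset.sum_comm, Finset.sum_congr rfl fun x _ => hsub _, Finset.sum_const,
      Finset.card_univ, nsmul_eq_mul] at h2
    have h4 : (Fintype.card H : ℤ) * ∑ x : Hm, (N (G0 ^ c * (x : (ZMod n)ˣ)) : ℤ) =
        Fintype.card H * (5 * Fintype.card Hm) := by
      rw [← h2]
      ring
    exact mul_left_cancel₀ hHpos.ne' h4
  refine isBal_of (D := fun c => 2 * φ c - (Fintype.card Hm : ℤ) * n) (fun c => ?_) (fun c => ?_)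
    fun c => ?_
  · simp only [hφ]
    ring
  · intro h2
    have h3 : Odd ((Fintype.card Hm : ℤ) * n) := by
      exact_mod_cast hcard.mul hodd
    have h4 : (Fintype.card Hm : ℤ) * n = 2 * φ c := by linarith
    rw [h4] at h3
    exact (Int.not_odd_iff_even.2 (even_two_mul _)) h3
  · rw [Finset.sum_sub_distrib, ← Finset.mul_sum, ← hsumN c, ← Finset.mul_sum, hsumHm,
      Finset.sum_const, Finset.card_univ, Fintype.card_fin, nsmul_eq_mul]
    push_cast
    ring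

end Pool.Agent.Helper41.AC
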