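import Pool.Agent.Helper41.AC.Mean

/-!
# The exceptional patterns and random signs
-/

namespace Pool.Agent.Helper41.AC

open Finset

/-! ### Fourier coefficients on `ℤ / m` -/

section

variable {m : ℕ} {ω : ℂ}

/-- the Fourier coefficients -/
noncomputable def ft (m : ℕ) (ω : ℂ) (φ : ℕ → ℂ) (k : ℕ) : ℂ :=
  (1 / m) * ∑ c ∈ Finset.range m, φ c * ω⁻¹ ^ (k * c)

theorem geom_zero {v : ℂ} (hv : v ^ m = 1) (hv1 : v ≠ 1) :
    ∑ k ∈ Finset.range m, v ^ k = 0 := by
  rw [geom_sum_eq hv1, hv, sub_self, zero_div]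

/-- orthogonality -/
theorem orth (hm : 0 < m) (hω : IsPrimitiveRoot ω m) {a b : ℕ} (ha : a < m) (hb : b < m) :
    ∑ k ∈ Finset.range m, ω ^ (k * a) * ω⁻¹ ^ (k * b) = if a = b then (m : ℂ) else 0 := by
  have hω0 : ω ≠ 0 := hω.ne_zero hm.ne'
  have h1 : ∀ k, ω ^ (k * a) * ω⁻¹ ^ (k * b) = (ω ^ a * ω⁻¹ ^ b) ^ k := by
    intro k
    rw [mul_pow, ← pow_mul, ← pow_mul, mul_comm a k, mul_comm b k]
  simp only [h1]
  split_ifs with h
  · rw [h, ← mul_pow, mul_inv_cancel₀ hω0, one_pow]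
    simp
  · refine geom_zero ?_ ?_
    · rw [mul_pow, ← pow_mul, ← pow_mul, mul_comm a m, mul_comm b m, pow_mul, pow_mul, inv_pow ω m,
        hω.pow_eq_one, inv_one, one_pow, one_pow, mul_one]
    · intro h2
      apply h
      have h3 : ω ^ a = ω ^ b := by
        rw [inv_pow] at h2
        exact (mul_inv_eq_one₀ (pow_ne_zero _ hω0)).1 h2
      exact hω.pow_inj ha hb h3

theorem ft_inv (hm : 0 < m) (hω : IsPrimitiveRoot ω m) (φ : ℕ → ℂ) {a : ℕ} (ha : a < m) :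
    ∑ k ∈ Finset.range m, ft m ω φ k * ω ^ (k * a) = φ a := by
  have hm' : (m : ℂ) ≠ 0 := Nat.cast_ne_zero.2 hm.ne'
  calc ∑ k ∈ Finset.range m, ft m ω φ k * ω ^ (k * a) =
        ∑ c ∈ Finset.range m, (1 / m : ℂ) * φ c *
          ∑ k ∈ Finset.range m, ω ^ (k * a) * ω⁻¹ ^ (k * c) := by
        simp only [ft, Finset.mul_sum, Finset.sum_mul]
        rw [Finset.sum_comm]
        refine Finset.sum_congr rfl fun c _ => Finset.sum_congr rfl fun k _ => ?_
        ring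
    _ = ∑ c ∈ Finset.range m, if a = c then φ c else 0 := by
        refine Finset.sum_congr rfl fun c hc => ?_
        rw [orth hm hω ha (Finset.mem_range.1 hc)]
        split_ifs
        · field_simp
        · rw [mul_zero]
    _ = φ a := by
        rw [Finset.sum_ite_eq, if_pos (Finset.mem_range.2 ha)]

theorem conj_root (hm : 0 < m) (hω : IsPrimitiveRoot ω m) : (starRingEnd ℂ) ω = ω⁻¹ := by
  have h1 : ‖ω‖ = 1 := hω.norm'_eq_one hm.ne'
  rw [Complex.inv_def, Complex.normSq_eq_norm_sq, h1]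
  simp

/-- Parseval -/
theorem parseval (hm : 0 < m) (hω : IsPrimitiveRoot ω m) {φ : ℕ → ℂ} (hφ : ∀ c, ‖φ c‖ ≤ 1) :
    ∑ k ∈ Finset.range m, ‖ft m ω φ k‖ ^ 2 ≤ 1 := by
  have hm' : (m : ℂ) ≠ 0 := Nat.cast_ne_zero.2 hm.ne'
  have hconj := conj_root hm hω
  have h1 : ((∑ k ∈ Finset.range m, ‖ft m ω φ k‖ ^ 2 : ℝ) : ℂ) =
      (1 / m : ℂ) * ∑ c ∈ Finset.range m, ((‖φ c‖ ^ 2 : ℝ) : ℂ) := by
    have h2 : ∀ k, ((‖ft m ω φ k‖ ^ 2 : ℝ) : ℂ) = ft m ω φ k *
        ((1 / m : ℂ) * ∑ c ∈ Finset.range m, (starRingEnd ℂ) (φ c) * ω ^ (k * c)) := by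
      intro k
      rw [Complex.ofReal_pow, ← Complex.mul_conj']
      congr 1
      rw [ft, map_mul, map_sum, map_div₀, map_one, Complex.conj_natCast]
      congr 1
      refine Finset.sum_congr rfl fun c _ => ?_
      rw [map_mul, map_pow, map_inv₀, hconj, inv_inv]
    rw [Complex.ofReal_sum, Finset.sum_congr rfl fun k _ => h2 k]
    calc ∑ k ∈ Finset.range m, ft m ω φ k *
          ((1 / m : ℂ) * ∑ c ∈ Finset.range m, (starRingEnd ℂ) (φ c) * ω ^ (k * c)) =
          ∑ c ∈ Finset.range m, (1 / m : ℂ) * (starRingEnd ℂ) (φ c) *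
            ∑ k ∈ Finset.range m, ft m ω φ k * ω ^ (k * c) := by
          simp only [Finset.mul_sum]
          rw [Finset.sum_comm]
          refine Finset.sum_congr rfl fun c _ => Finset.sum_congr rfl fun k _ => ?_
          ring
      _ = _ := by
          rw [Finset.mul_sum]
          refine Finset.sum_congr rfl fun c hc => ?_
          rw [ft_inv hm hω φ (Finset.mem_range.1 hc), Complex.ofReal_pow, ← Complex.mul_conj']
          ring
  have h2 : ∑ k ∈ Finset.range m, ‖ft m ω φ k‖ ^ 2 =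
      (1 / m : ℝ) * ∑ c ∈ Finset.range m, ‖φ c‖ ^ 2 := by
    have h3 : ((∑ k ∈ Finset.range m, ‖ft m ω φ k‖ ^ 2 : ℝ) : ℂ) =
        (((1 / m : ℝ) * ∑ c ∈ Finset.range m, ‖φ c‖ ^ 2 : ℝ) : ℂ) := by
      rw [h1]
      push_cast
      rfl
    exact_mod_cast h3
  rw [h2]
  have h4 : ∑ c ∈ Finset.range m, ‖φ c‖ ^ 2 ≤ m := by
    calc _ ≤ ∑ _c ∈ Finset.range m, (1 : ℝ) := Finset.sum_le_sum fun c _ =>
          pow_le_one₀ (norm_nonneg _) (hφ c)
      _ = m := by simp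
  have hm'' : (0 : ℝ) < m := by exact_mod_cast hm
  rw [one_div, inv_mul_le_iff₀ hm'', mul_one]
  exact h4

theorem ft_norm (hm : 0 < m) (hω : IsPrimitiveRoot ω m) {φ : ℕ → ℂ} (hφ : ∀ c, ‖φ c‖ ≤ 1) :
    ∑ k ∈ Finset.range m, ‖ft m ω φ k‖ ≤ Real.sqrt m := by
  apply Real.le_sqrt_of_sq_le
  have h := sq_sum_le_card_mul_sum_sq (s := Finset.range m) (f := fun k => ‖ft m ω φ k‖)
  rw [Finset.card_range] at h
  refine h.trans ?_
  have hm'' : (0 : ℝ) ≤ m := by positivity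
  nlinarith [parseval hm hω hφ]

end

/-! ### The function -/

section

variable {F : Type} [Field F] {m : ℕ} (τ : MulChar F ℂ)

/-- a function of the class of one coordinate, times a power of `τ` -/
noncomputable def coord (m : ℕ) (ω : ℂ) (φ : ℕ → ℂ) (d : ℕ) (i : Fin 10) (x : Fin 10 → F) : ℂ :=
  ∑ k ∈ Finset.range m, ft m ω φ k * ∏ l, cv τ (Pi.single i (2 * k + d)) l (x l)

theorem coord_repr {ω : ℂ} (hm : 0 < m) (hω : IsPrimitiveRoot ω m) {φ : ℕ → ℂ}
    (hφ : ∀ c, ‖φ c‖ ≤ 1) (d : ℕ) (i : Fin 10) :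
    Repr (coord τ m ω φ d i) (Real.sqrt m) := by
  have h := Repr.sum (s := Finset.range m) (K := fun k => ‖ft m ω φ k‖) fun k _ =>
    repr_char (ft m ω φ k) (cv τ (Pi.single i (2 * k + d)))
  exact h.mono (ft_norm hm hω hφ)

theorem coord_eq {g : Fˣ} {ζ : ℂ} (hm : 0 < m) (hζ : IsPrimitiveRoot ζ (2 * m)) (hτ : τ g = ζ)
    (φ : ℕ → ℂ) (d : ℕ) (i : Fin 10) (α : Fin 10 → ℕ) :
    coord τ m (ζ ^ 2) φ d i (fun l => ((g ^ α l : Fˣ) : F)) = φ (α i % m) * ζ ^ (d * α i) := by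
  have hω : IsPrimitiveRoot (ζ ^ 2) m := hζ.pow (by omega) rfl
  rw [coord]
  simp only [cv_apply τ hτ]
  have h1 : ∀ k, ∑ l, (Pi.single i (2 * k + d) : Fin 10 → ℕ) l * α l = (2 * k + d) * α i := by
    intro k
    simp only [Pi.single_apply, ite_mul, zero_mul, Finset.sum_ite_eq', Finset.mem_univ, if_true]
  simp only [h1]
  have h2 : ∀ k, ζ ^ ((2 * k + d) * α i) = (ζ ^ 2) ^ (k * (α i % m)) * ζ ^ (d * α i) := by
    intro k
    have h3 : (ζ ^ 2) ^ (k * α i) = (ζ ^ 2) ^ (k * (α i % m)) := by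
      conv_lhs => rw [← Nat.mod_add_div (α i) m, mul_add, pow_add]
      have : k * (m * (α i / m)) = m * (k * (α i / m)) := by ring
      rw [this, pow_mul _ m, hω.pow_eq_one, one_pow, mul_one]
    rw [add_mul, pow_add, mul_assoc, pow_mul ζ 2, h3]
  simp only [h2]
  rw [← ft_inv hm hω φ (Nat.mod_lt (α i) hm), Finset.sum_mul]
  refine Finset.sum_congr rfl fun k _ => ?_
  ring

/-- the sign of a bit -/
def sgn (b : Bool) : ℂ := if b then 1 else -1

theorem norm_sgn (b : Bool) : ‖sgn b‖ = 1 := by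
  cases b <;> simp [sgn]

/-- a sequence of signs as a function on the natural numbers -/
noncomputable def ext (e : Fin m → Bool) (c : ℕ) : ℂ := if h : c < m then sgn (e ⟨c, h⟩) else 0

theorem norm_ext (e : Fin m → Bool) (c : ℕ) : ‖ext e c‖ ≤ 1 := by
  rw [ext]
  split_ifs
  · exact (norm_sgn _).le
  · rw [norm_zero]
    exact zero_le_one

/-- the indicator function of the exceptional patterns, by random signs -/
noncomputable def sexc (m : ℕ) (ζ : ℂ) (x : Fin 10 → F) : ℂ :=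
  ∑ e : Fin m → Bool, (1 / 2 ^ (m + 1) : ℂ) *
    ((∏ i, coord τ m (ζ ^ 2) (ext e) 0 i x) +
      (-1) * ∏ i, coord τ m (ζ ^ 2) (fun c => ext e c * ζ⁻¹ ^ c) 1 i x)

theorem sexc_repr {ζ : ℂ} (hm : 0 < m) (hζ : IsPrimitiveRoot ζ (2 * m)) :
    Repr (sexc τ m ζ) (m ^ 5) := by
  have hω : IsPrimitiveRoot (ζ ^ 2) m := hζ.pow (by omega) rfl
  have hn : ‖ζ‖ = 1 := hζ.norm'_eq_one (by omega)
  have hs : ∏ _i : Fin 10, Real.sqrt m = (m : ℝ) ^ 5 := by
    rw [Finset.prod_const, Finset.card_univ, Fintype.card_fin]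
    have : Real.sqrt m ^ 10 = (Real.sqrt m ^ 2) ^ 5 := by ring
    rw [this, Real.sq_sqrt (Nat.cast_nonneg m)]
  have h1 : ∀ e : Fin m → Bool, Repr (fun x => ∏ i, coord τ m (ζ ^ 2) (ext e) 0 i x)
      ((m : ℝ) ^ 5) := by
    intro e
    rw [← hs]
    exact Repr.prod fun i _ => coord_repr τ hm hω (norm_ext e) 0 i
  have h2 : ∀ e : Fin m → Bool, Repr (fun x =>
      ∏ i, coord τ m (ζ ^ 2) (fun c => ext e c * ζ⁻¹ ^ c) 1 i x) ((m : ℝ) ^ 5) := by
    intro e
    rw [← hs]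
    refine Repr.prod fun i _ => coord_repr τ hm hω (fun c => ?_) 1 i
    rw [norm_mul, norm_pow, norm_inv, hn, inv_one, one_pow, mul_one]
    exact norm_ext e c
  have h3 := Repr.sum (s := (Finset.univ : Finset (Fin m → Bool)))
    (K := fun _ => ‖(1 / 2 ^ (m + 1) : ℂ)‖ * ((m : ℝ) ^ 5 + ‖(-1 : ℂ)‖ * (m : ℝ) ^ 5)) fun e _ =>
      (repr_const (1 / 2 ^ (m + 1) : ℂ)).mul ((h1 e).add ((repr_const (-1)).mul (h2 e)))
  refine h3.mono (le_of_eq ?_)
  rw [Finset.sum_const, Finset.card_univ, Fintype.card_fun, Fintype.card_bool, Fintype.card_fin,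
    nsmul_eq_mul, norm_neg, norm_one, norm_div, norm_one, norm_pow, Complex.norm_ofNat]
  push_cast
  field_simp
  ring

/-- the sum over the signs -/
theorem sum_signs {n : ℕ} (c : Fin n → Fin m) :
    ∑ e : Fin m → Bool, ∏ i, sgn (e (c i)) =
      if ∀ v, Even (Finset.univ.filter fun i => c i = v).card then (2 : ℂ) ^ m else 0 := by
  have h1 : ∀ e : Fin m → Bool, ∏ i, sgn (e (c i)) =
      ∏ v, sgn (e v) ^ (Finset.univ.filter fun i => c i = v).card := by
    intro e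
    rw [← Finset.prod_fiberwise Finset.univ c]
    refine Finset.prod_congr rfl fun v _ => ?_
    rw [← Finset.prod_const]
    refine Finset.prod_congr rfl fun i hi => ?_
    rw [(Finset.mem_filter.1 hi).2]
  simp only [h1]
  have h2 := Finset.prod_univ_sum (fun _ : Fin m => (Finset.univ : Finset Bool))
    (fun v b => sgn b ^ (Finset.univ.filter fun i => c i = v).card)
  rw [Fintype.piFinset_univ] at h2
  rw [← h2]
  have h3 : ∀ N : ℕ, ∑ b : Bool, sgn b ^ N = if Even N then (2 : ℂ) else 0 := by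
    intro N
    have ht : sgn true = 1 := rfl
    have hf : sgn false = -1 := rfl
    rw [Fintype.sum_bool, ht, hf, one_pow]
    rcases Nat.even_or_odd N with h | h
    · rw [if_pos h, h.neg_one_pow]
      norm_num
    · rw [if_neg (Nat.not_even_iff_odd.2 h), h.neg_one_pow]
      norm_num
  simp only [h3]
  split_ifs with h
  · rw [Finset.prod_congr rfl fun v _ => if_pos (h v)]
    simp
  · push Not at h
    obtain ⟨v, hv⟩ := h
    exact Finset.prod_eq_zero (Finset.mem_univ v) (if_neg hv)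

theorem sexc_eq (hm : 0 < m) {g : Fˣ} {ζ : ℂ} (hζ : IsPrimitiveRoot ζ (2 * m)) (hτ : τ g = ζ)
    (α : Fin 10 → ℕ) [Decidable (IsExc m α)] :
    sexc τ m ζ (fun l => ((g ^ α l : Fˣ) : F)) = if IsExc m α then 1 else 0 := by
  have hζ0 : ζ ≠ 0 := hζ.ne_zero (by omega)
  have hζm : ζ ^ m = -1 := by
    have h1 : ζ ^ m * ζ ^ m = 1 := by rw [← pow_add, ← two_mul, hζ.pow_eq_one]
    rcases mul_self_eq_one_iff.1 h1 with h2 | h2
    · exact absurd h2 (hζ.pow_ne_one_of_pos_of_lt hm.ne' (by omega))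
    · exact h2
  rw [sexc]
  simp only [coord_eq τ hm hζ hτ]
  let c : Fin 10 → Fin m := fun i => ⟨α i % m, Nat.mod_lt _ hm⟩
  have h1 : ∀ (e : Fin m → Bool) i, ext e (α i % m) * ζ ^ (0 * α i) = sgn (e (c i)) := by
    intro e i
    rw [zero_mul, pow_zero, mul_one, ext, dif_pos (Nat.mod_lt _ hm)]
  have h2 : ∀ (e : Fin m → Bool) i, ext e (α i % m) * ζ⁻¹ ^ (α i % m) * ζ ^ (1 * α i) =
      sgn (e (c i)) * (-1) ^ (α i / m) := by
    intro e i
    have h3 : ζ⁻¹ ^ (α i % m) * ζ ^ (1 * α i) = (-1) ^ (α i / m) := by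
      rw [one_mul]
      conv_lhs => rw [← Nat.div_add_mod (α i) m, pow_add, pow_mul, hζm]
      rw [Nat.mul_add_mod, Nat.mod_mod, inv_pow, mul_comm, mul_assoc,
        mul_inv_cancel₀ (pow_ne_zero _ hζ0), mul_one]
    rw [mul_assoc, h3, ext, dif_pos (Nat.mod_lt _ hm)]
  simp only [h1, h2, Finset.prod_mul_distrib, Finset.prod_pow_eq_pow_sum]
  have h3 : ∑ e : Fin m → Bool, (1 / 2 ^ (m + 1) : ℂ) * ((∏ i, sgn (e (c i))) +
      (-1) * ((∏ i, sgn (e (c i))) * (-1) ^ ∑ i, α i / m)) =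
      (1 / 2 ^ (m + 1) : ℂ) * ((∑ e : Fin m → Bool, ∏ i, sgn (e (c i))) *
        (1 - (-1) ^ ∑ i, α i / m)) := by
    rw [← Finset.mul_sum, Finset.sum_mul]
    congr 1
    refine Finset.sum_congr rfl fun e _ => ?_
    ring
  rw [h3, sum_signs]
  have hiff : (∀ v, Even (Finset.univ.filter fun i => c i = v).card) ↔
      ∀ i, Even (Finset.univ.filter fun j => α j % m = α i % m).card := by
    have h4 : ∀ i, (Finset.univ.filter fun j => c j = c i) =
        Finset.univ.filter fun j => α j % m = α i % m := by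
      intro i
      ext j
      simp [c, Fin.ext_iff]
    constructor
    · intro h i
      rw [← h4]
      exact h (c i)
    · intro h v
      by_cases hv : ∃ i, c i = v
      · obtain ⟨i, rfl⟩ := hv
        rw [h4]
        exact h i
      · push Not at hv
        rw [Finset.filter_false_of_mem fun i _ => hv i, Finset.card_empty]
        exact Even.zero
  by_cases h : ∀ i, Even (Finset.univ.filter fun j => α j % m = α i % m).card
  · rw [if_pos (hiff.2 h)]
    rcases Nat.even_or_odd (∑ i, α i / m) with h4 | h4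
    · rw [h4.neg_one_pow, if_neg (c := IsExc m α) fun h5 => (Nat.not_odd_iff_even.2 h4) h5.2]
      ring
    · rw [h4.neg_one_pow, if_pos (c := IsExc m α) ⟨h, h4⟩]
      rw [pow_succ]
      field_simp
      norm_num
  · rw [if_neg fun h4 => h (hiff.1 h4), if_neg (c := IsExc m α) fun h4 => h h4.1]
    ring

end

end Pool.Agent.Helper41.AC
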