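import Pool.Agent.Helper41.AC.Cycle
import Pool.Agent.Helper73.QC.Defs

/-!
# Square root cancellation for ten characters
-/

namespace Pool.Agent.Helper41.AC

open Finset
open Pool.Agent.Helper73.QC (residues)

theorem prod_ten (f : Fin 10 → ℂ) :
    ∏ i, f i = f 0 * f 1 * f 2 * f 3 * f 4 * f 5 * f 6 * f 7 * f 8 * f 9 := by
  simp only [Fin.prod_univ_castSucc, Fin.prod_univ_zero, one_mul]
  rfl

theorem prod_four (f : Fin 4 → ℂ) : ∏ i, f i = f 0 * f 1 * f 2 * f 3 :=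
  Fin.prod_univ_four f

variable {F : Type} [Field F] [Fintype F] [DecidableEq F]

/-- the coordinates of the first cycle -/
def eA : F × (Fin 4 → F) ≃ (Fin 5 → F) where
  toFun x := ![x.2 0, -x.2 2 - x.2 0 - x.1, x.2 1, -x.2 3 - x.2 1 - x.1, x.1]
  invFun a := (a 4, ![a 0, a 2, -(a 0 + a 1 + a 4), -(a 2 + a 3 + a 4)])
  left_inv x := by
    obtain ⟨z, w⟩ := x
    refine Prod.ext rfl ?_
    funext i
    fin_cases i <;> simp <;> ring
  right_inv a := by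
    funext i
    fin_cases i <;> simp <;> ring

/-- the coordinates of the second cycle -/
def eB : F × (Fin 4 → F) ≃ (Fin 5 → F) where
  toFun x := ![x.2 0, x.2 1, x.2 2 - x.2 0 - x.1, x.2 3 - x.2 1 - x.1, x.1]
  invFun a := (a 4, ![a 0, a 1, a 0 + a 2 + a 4, a 1 + a 3 + a 4])
  left_inv x := by
    obtain ⟨z, w⟩ := x
    refine Prod.ext rfl ?_
    funext i
    fin_cases i <;> simp <;> ring
  right_inv a := by
    funext i
    fin_cases i <;> simp <;> ring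

/-- the coordinates of the third cycle -/
def eC : F × (Fin 4 → F) ≃ (Fin 5 → F) where
  toFun x := ![x.2 0, x.1, -x.2 3 - x.2 0 - x.1 - x.2 1 - x.2 2, x.2 1, x.2 2]
  invFun a := (a 1, ![a 0, a 3, a 4, -(a 0 + a 1 + a 2 + a 3 + a 4)])
  left_inv x := by
    obtain ⟨z, w⟩ := x
    refine Prod.ext rfl ?_
    funext i
    fin_cases i <;> simp
    ring
  right_inv a := by
    funext i
    fin_cases i <;> simp
    ring

omit [DecidableEq F] in
theorem norm_six (c1 c2 c3 c4 c5 c6 : MulChar F ℂ) (x1 x2 x3 x4 x5 x6 : F) :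
    ‖c1 x1 * c2 x2 * c3 x3 * c4 x4 * c5 x5 * c6 x6‖ ≤ 1 := by
  simp only [norm_mul]
  have h := norm_le c1 x1
  have h2 := norm_le c2 x2
  have h3 := norm_le c3 x3
  have h4 := norm_le c4 x4
  have h5 := norm_le c5 x5
  have h6 := norm_le c6 x6
  refine mul_le_one₀ (mul_le_one₀ (mul_le_one₀ (mul_le_one₀ (mul_le_one₀ h
    (norm_nonneg _) h2) (norm_nonneg _) h3) (norm_nonneg _) h4) (norm_nonneg _) h5)
    (norm_nonneg _) h6

theorem sum_A {χ : Fin 10 → MulChar F ℂ} (h : χ 0 ≠ 1 ∨ χ 2 ≠ 1 ∨ χ 5 ≠ 1 ∨ χ 6 ≠ 1) :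
    ‖∑ u : Fin 5 → F, ∏ i, χ i (residues u i)‖ ^ 2 ≤ 2 * (Fintype.card F : ℝ) ^ 9 := by
  have h1 : ∃ i, (![χ 0, χ 2, χ 5, χ 6] : Fin 4 → MulChar F ℂ) i ≠ 1 := by
    rcases h with h | h | h | h
    exacts [⟨0, h⟩, ⟨1, h⟩, ⟨2, h⟩, ⟨3, h⟩]
  have h2 : ∀ i, (![1, -1, -1, 1] : Fin 4 → F) i ≠ 0 := by
    intro i
    fin_cases i <;> simp
  have key := cycle_sum h1 h2 (g := fun z w => χ 1 (-w 2 - w 0 - z) * χ 3 (-w 3 - w 1 - z) * χ 4 z *
    χ 7 (w 0 + w 1 + z) * χ 8 (-w 2 - w 0 - z + (-w 3 - w 1 - z) + z) *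
    χ 9 (-(w 0 + (-w 2 - w 0 - z) + w 1 + (-w 3 - w 1 - z) + z))) (fun z w => norm_six ..)
    (fun z w y => by
      simp only [Matrix.cons_val_zero, Matrix.cons_val_one, Matrix.cons_val]
      congr 1
      congr 1
      congr 1
      congr 1
      congr 1
      all_goals (congr 1; ring))
  have h3 : ∑ u : Fin 5 → F, ∏ i, χ i (residues u i) = ∑ z, ∑ w : Fin 4 → F,
      (∏ i, (![χ 0, χ 2, χ 5, χ 6] : Fin 4 → MulChar F ℂ) i (w i)) *
        (χ 1 (-w 2 - w 0 - z) * χ 3 (-w 3 - w 1 - z) * χ 4 z *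
    χ 7 (w 0 + w 1 + z) * χ 8 (-w 2 - w 0 - z + (-w 3 - w 1 - z) + z) *
    χ 9 (-(w 0 + (-w 2 - w 0 - z) + w 1 + (-w 3 - w 1 - z) + z))) := by
    rw [← Fintype.sum_prod_type']
    refine (Fintype.sum_equiv eA _ _ ?_).symm
    rintro ⟨z, w⟩
    rw [prod_ten, prod_four]
    have e5 : residues (eA (z, w)) 5 = w 2 := by
      simp only [residues, eA, Equiv.coe_fn_mk, Matrix.cons_val]
      ring
    have e6 : residues (eA (z, w)) 6 = w 3 := by
      simp only [residues, eA, Equiv.coe_fn_mk, Matrix.cons_val]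
      ring
    have e0 : residues (eA (z, w)) 0 = w 0 := rfl
    have e1 : residues (eA (z, w)) 1 = -w 2 - w 0 - z := rfl
    have e2 : residues (eA (z, w)) 2 = w 1 := rfl
    have e3 : residues (eA (z, w)) 3 = -w 3 - w 1 - z := rfl
    have e4 : residues (eA (z, w)) 4 = z := rfl
    have e7 : residues (eA (z, w)) 7 = w 0 + w 1 + z := rfl
    have e8 : residues (eA (z, w)) 8 = -w 2 - w 0 - z + (-w 3 - w 1 - z) + z := rfl
    have e9 : residues (eA (z, w)) 9 =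
      -(w 0 + (-w 2 - w 0 - z) + w 1 + (-w 3 - w 1 - z) + z) := rfl
    rw [e0, e1, e2, e3, e4, e5, e6, e7, e8, e9]
    simp only [Matrix.cons_val]
    ring
  rw [h3]
  exact key

theorem sum_B {χ : Fin 10 → MulChar F ℂ} (h : χ 0 ≠ 1 ∨ χ 1 ≠ 1 ∨ χ 7 ≠ 1 ∨ χ 8 ≠ 1) :
    ‖∑ u : Fin 5 → F, ∏ i, χ i (residues u i)‖ ^ 2 ≤ 2 * (Fintype.card F : ℝ) ^ 9 := by
  have h1 : ∃ i, (![χ 0, χ 1, χ 7, χ 8] : Fin 4 → MulChar F ℂ) i ≠ 1 := by
    rcases h with h | h | h | h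
    exacts [⟨0, h⟩, ⟨1, h⟩, ⟨2, h⟩, ⟨3, h⟩]
  have h2 : ∀ i, (![1, -1, 1, -1] : Fin 4 → F) i ≠ 0 := by
    intro i
    fin_cases i <;> simp
  have key := cycle_sum h1 h2 (g := fun z w => χ 2 (w 2 - w 0 - z) * χ 3 (w 3 - w 1 - z) * χ 4 z *
    χ 5 (-(w 0 + w 1 + z)) * χ 6 (-(w 2 - w 0 - z + (w 3 - w 1 - z) + z)) *
    χ 9 (-(w 0 + w 1 + (w 2 - w 0 - z) + (w 3 - w 1 - z) + z))) (fun z w => norm_six ..)
    (fun z w y => by
      simp only [Matrix.cons_val_zero, Matrix.cons_val_one, Matrix.cons_val]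
      congr 1
      congr 1
      congr 1
      congr 1
      congr 1
      all_goals (congr 1; ring))
  have h3 : ∑ u : Fin 5 → F, ∏ i, χ i (residues u i) = ∑ z, ∑ w : Fin 4 → F,
      (∏ i, (![χ 0, χ 1, χ 7, χ 8] : Fin 4 → MulChar F ℂ) i (w i)) *
        (χ 2 (w 2 - w 0 - z) * χ 3 (w 3 - w 1 - z) * χ 4 z *
    χ 5 (-(w 0 + w 1 + z)) * χ 6 (-(w 2 - w 0 - z + (w 3 - w 1 - z) + z)) *
    χ 9 (-(w 0 + w 1 + (w 2 - w 0 - z) + (w 3 - w 1 - z) + z))) := by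
    rw [← Fintype.sum_prod_type']
    refine (Fintype.sum_equiv eB _ _ ?_).symm
    rintro ⟨z, w⟩
    rw [prod_ten, prod_four]
    have e7 : residues (eB (z, w)) 7 = w 2 := by
      simp only [residues, eB, Equiv.coe_fn_mk, Matrix.cons_val]
      ring
    have e8 : residues (eB (z, w)) 8 = w 3 := by
      simp only [residues, eB, Equiv.coe_fn_mk, Matrix.cons_val]
      ring
    have e0 : residues (eB (z, w)) 0 = w 0 := rfl
    have e1 : residues (eB (z, w)) 1 = w 1 := rfl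
    have e2 : residues (eB (z, w)) 2 = w 2 - w 0 - z := rfl
    have e3 : residues (eB (z, w)) 3 = w 3 - w 1 - z := rfl
    have e4 : residues (eB (z, w)) 4 = z := rfl
    have e5 : residues (eB (z, w)) 5 = -(w 0 + w 1 + z) := rfl
    have e6 : residues (eB (z, w)) 6 = -(w 2 - w 0 - z + (w 3 - w 1 - z) + z) := rfl
    have e9 : residues (eB (z, w)) 9 =
      -(w 0 + w 1 + (w 2 - w 0 - z) + (w 3 - w 1 - z) + z) := rfl
    rw [e0, e1, e2, e3, e4, e5, e6, e7, e8, e9]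
    simp only [Matrix.cons_val]
    ring
  rw [h3]
  exact key

theorem sum_C {χ : Fin 10 → MulChar F ℂ} (h : χ 0 ≠ 1 ∨ χ 3 ≠ 1 ∨ χ 4 ≠ 1 ∨ χ 9 ≠ 1) :
    ‖∑ u : Fin 5 → F, ∏ i, χ i (residues u i)‖ ^ 2 ≤ 2 * (Fintype.card F : ℝ) ^ 9 := by
  have h1 : ∃ i, (![χ 0, χ 3, χ 4, χ 9] : Fin 4 → MulChar F ℂ) i ≠ 1 := by
    rcases h with h | h | h | h
    exacts [⟨0, h⟩, ⟨1, h⟩, ⟨2, h⟩, ⟨3, h⟩]
  have h2 : ∀ i, (![1, 1, -1, -1] : Fin 4 → F) i ≠ 0 := by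
    intro i
    fin_cases i <;> simp
  have key := cycle_sum h1 h2 (g := fun z w => χ 1 z * χ 2 (-w 3 - w 0 - z - w 1 - w 2) *
    χ 5 (-(w 0 + z + w 2)) * χ 6 (-(-w 3 - w 0 - z - w 1 - w 2 + w 1 + w 2)) *
    χ 7 (w 0 + (-w 3 - w 0 - z - w 1 - w 2) + w 2) * χ 8 (z + w 1 + w 2)) (fun z w => norm_six ..)
    (fun z w y => by
      simp only [Matrix.cons_val_zero, Matrix.cons_val_one, Matrix.cons_val]
      congr 1
      congr 1
      congr 1
      congr 1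
      congr 1
      all_goals (congr 1; ring))
  have h3 : ∑ u : Fin 5 → F, ∏ i, χ i (residues u i) = ∑ z, ∑ w : Fin 4 → F,
      (∏ i, (![χ 0, χ 3, χ 4, χ 9] : Fin 4 → MulChar F ℂ) i (w i)) *
        (χ 1 z * χ 2 (-w 3 - w 0 - z - w 1 - w 2) *
    χ 5 (-(w 0 + z + w 2)) * χ 6 (-(-w 3 - w 0 - z - w 1 - w 2 + w 1 + w 2)) *
    χ 7 (w 0 + (-w 3 - w 0 - z - w 1 - w 2) + w 2) * χ 8 (z + w 1 + w 2)) := by
    rw [← Fintype.sum_prod_type']
    refine (Fintype.sum_equiv eC _ _ ?_).symm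
    rintro ⟨z, w⟩
    rw [prod_ten, prod_four]
    have e9 : residues (eC (z, w)) 9 = w 3 := by
      simp only [residues, eC, Equiv.coe_fn_mk, Matrix.cons_val]
      ring
    have e0 : residues (eC (z, w)) 0 = w 0 := rfl
    have e1 : residues (eC (z, w)) 1 = z := rfl
    have e2 : residues (eC (z, w)) 2 = -w 3 - w 0 - z - w 1 - w 2 := rfl
    have e3 : residues (eC (z, w)) 3 = w 1 := rfl
    have e4 : residues (eC (z, w)) 4 = w 2 := rfl
    have e5 : residues (eC (z, w)) 5 = -(w 0 + z + w 2) := rfl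
    have e6 : residues (eC (z, w)) 6 = -(-w 3 - w 0 - z - w 1 - w 2 + w 1 + w 2) := rfl
    have e7 : residues (eC (z, w)) 7 = w 0 + (-w 3 - w 0 - z - w 1 - w 2) + w 2 := rfl
    have e8 : residues (eC (z, w)) 8 = z + w 1 + w 2 := rfl
    rw [e0, e1, e2, e3, e4, e5, e6, e7, e8, e9]
    simp only [Matrix.cons_val]
    ring
  rw [h3]
  exact key

/-- Square root cancellation for the values of ten characters at the ten residues. -/
theorem ten_sum {χ : Fin 10 → MulChar F ℂ} (h : χ ≠ 1) :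
    ‖∑ u : Fin 5 → F, ∏ i, χ i (residues u i)‖ ^ 2 ≤ 2 * (Fintype.card F : ℝ) ^ 9 := by
  obtain ⟨i, hi⟩ : ∃ i, χ i ≠ 1 := by
    by_contra hc
    push Not at hc
    exact h (funext hc)
  fin_cases i
  · exact sum_A (Or.inl hi)
  · exact sum_B (Or.inr (Or.inl hi))
  · exact sum_A (Or.inr (Or.inl hi))
  · exact sum_C (Or.inr (Or.inl hi))
  · exact sum_C (Or.inr (Or.inr (Or.inl hi)))
  · exact sum_A (Or.inr (Or.inr (Or.inl hi)))
  · exact sum_A (Or.inr (Or.inr (Or.inr hi)))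
  · exact sum_B (Or.inr (Or.inr (Or.inl hi)))
  · exact sum_B (Or.inr (Or.inr (Or.inr hi)))
  · exact sum_C (Or.inr (Or.inr (Or.inr hi)))

end Pool.Agent.Helper41.AC
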