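import Pool.Agent.Helper73.KT.Glue

/-!
# Semisimplicity at one eigenvalue of a power
-/

open Module

namespace Pool.Agent.Helper41.AC

open Pool.Agent.Helper73.KT

variable {L V : Type*} [Field L] [AddCommGroup V] [Module L V]

/-- the kernel and the stable image -/
def fit (g : End L V) : Submodule L V := LinearMap.ker g ⊔ ⨅ n : ℕ, LinearMap.range (g ^ n)

theorem fit_sq [FiniteDimensional L V] {g : End L V} {x : V} (hx : x ∈ fit g)
    (h : g (g x) = 0) : g x = 0 := by
  obtain ⟨y, hy, z, hz, rfl⟩ := Submodule.mem_sup.1 hx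
  rw [LinearMap.mem_ker] at hy
  rw [map_add, hy, zero_add] at h ⊢
  have h1 : z ∈ ⨆ n : ℕ, LinearMap.ker (g ^ n) := by
    refine Submodule.mem_iSup_of_mem 2 ?_
    rw [LinearMap.mem_ker, pow_two, End.mul_apply, h]
  have h2 := (LinearMap.isCompl_iSup_ker_pow_iInf_range_pow g).disjoint
  have h3 : z = 0 := Submodule.disjoint_def.1 h2 z h1 hz
  rw [h3, map_zero]

theorem eigenspace_le_fit (f : End L V) (c Q : L) (N : ℕ) :
    f.eigenspace c ≤ fit (f ^ N - Q • 1) := by
  intro x hx
  rw [End.mem_eigenspace_iff] at hx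
  have h1 : ∀ j : ℕ, (f ^ j) x = c ^ j • x := by
    intro j
    induction j with
    | zero => simp
    | succ j ih => rw [pow_succ', End.mul_apply, ih, map_smul, hx, smul_smul, pow_succ]
  have h2 : (f ^ N - Q • 1 : End L V) x = (c ^ N - Q) • x := by
    rw [LinearMap.sub_apply, LinearMap.smul_apply, End.one_apply, h1, sub_smul]
  by_cases hd : c ^ N - Q = 0
  · refine Submodule.mem_sup_left ?_
    rw [LinearMap.mem_ker, h2, hd, zero_smul]
  · refine Submodule.mem_sup_right ?_
    rw [Submodule.mem_iInf]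
    intro n
    have h3 : ((f ^ N - Q • 1 : End L V) ^ n) x = (c ^ N - Q) ^ n • x := by
      induction n with
      | zero => simp
      | succ n ih => rw [pow_succ', End.mul_apply, ih, map_smul, h2, smul_smul, pow_succ]
    refine ⟨((c ^ N - Q) ^ n)⁻¹ • x, ?_⟩
    rw [map_smul, h3, smul_smul, inv_mul_cancel₀ (pow_ne_zero n hd), one_smul]

theorem le_fit [IsAlgClosed L] [CharZero L] [FiniteDimensional L V] {f : End L V} {N m : ℕ}
    (hN : 0 < N) (hm : 0 < m) {Q : L} (hQ : Q ≠ 0) {U : Submodule L V}
    (h : ∀ x ∈ U, (f ^ (m * N)) x ∈ U)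
    (hs : ∀ x : U, ((f ^ (m * N)).restrict h - Q ^ m • 1)
      (((f ^ (m * N)).restrict h - Q ^ m • 1) x) = 0 →
        ((f ^ (m * N)).restrict h - Q ^ m • 1) x = 0) : U ≤ fit (f ^ N - Q • 1) := by
  set S : End L U := (f ^ (m * N)).restrict h - Q ^ m • 1 with hS
  have hval : ∀ x : U, ((S x : U) : V) = (f ^ (m * N) - Q ^ m • 1 : End L V) (x : V) := by
    intro x
    rfl
  have hvaln : ∀ (n : ℕ) (x : U), (((S ^ n) x : U) : V) =
      ((f ^ (m * N) - Q ^ m • 1 : End L V) ^ n) (x : V) := by
    intro n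
    induction n with
    | zero => intro x; rfl
    | succ n ih => intro x; rw [pow_succ, pow_succ, End.mul_apply, End.mul_apply, ih, hval]
  have hker : (⨆ n : ℕ, LinearMap.ker (S ^ n)) ≤ LinearMap.ker S := by
    refine iSup_le fun n => ?_
    induction n with
    | zero =>
      intro x hx
      rw [pow_zero, LinearMap.mem_ker, End.one_apply] at hx
      rw [hx]
      exact Submodule.zero_mem _
    | succ n ih =>
      cases n with
      | zero => rw [zero_add, pow_one]
      | succ n =>
        intro x hx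
        apply ih
        rw [LinearMap.mem_ker] at hx ⊢
        rw [pow_succ', End.mul_apply]
        apply hs
        rw [pow_succ', pow_succ', End.mul_apply, End.mul_apply] at hx
        exact hx
  intro x hx
  have hc := (LinearMap.isCompl_iSup_ker_pow_iInf_range_pow S).codisjoint
  have hx' : (⟨x, hx⟩ : U) ∈ (⨆ n : ℕ, LinearMap.ker (S ^ n)) ⊔ ⨅ n : ℕ, LinearMap.range (S ^ n) := by
    rw [codisjoint_iff.1 hc]
    exact Submodule.mem_top
  obtain ⟨y, hy, z, hz, hyz⟩ := Submodule.mem_sup.1 hx'
  have hyz' : (y : V) + z = x := congrArg Subtype.val hyz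
  rw [← hyz']
  refine Submodule.add_mem _ ?_ ?_
  · have h1 := hker hy
    rw [LinearMap.mem_ker] at h1
    have h2 := congrArg Subtype.val h1
    rw [hval] at h2
    have h3 : (y : V) ∈ (f ^ (m * N)).eigenspace (Q ^ m) := by
      rw [End.mem_eigenspace_iff]
      rw [LinearMap.sub_apply, LinearMap.smul_apply, End.one_apply] at h2
      exact sub_eq_zero.1 h2
    have h4 := eigenspace_pow_le (f := f) (Nat.mul_pos hm hN) (pow_ne_zero m hQ) h3
    exact (iSup_le fun a => eigenspace_le_fit f a Q N) h4
  · refine Submodule.mem_sup_right ?_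
    rw [Submodule.mem_iInf] at hz ⊢
    intro n
    obtain ⟨w, hw⟩ := hz n
    have h1 := congrArg Subtype.val hw
    rw [hvaln] at h1
    have hcomm : Commute (f ^ N) (Q • (1 : End L V)) := (Commute.one_right _).smul_right Q
    set G : End L V := ∑ i ∈ Finset.range m, (f ^ N) ^ i * (Q • (1 : End L V)) ^ (m - 1 - i)
      with hG
    have h2 : (f ^ (m * N) - Q ^ m • 1 : End L V) = (f ^ N - Q • 1) * G := by
      rw [hcomm.mul_geom_sum₂, ← pow_mul, mul_comm N m, smul_pow, one_pow]
    have h3 : Commute (f ^ N - Q • 1 : End L V) G := by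
      rw [hG]
      refine Commute.sum_right _ _ _ fun i _ => ?_
      have h4 : Commute (f ^ N - Q • 1 : End L V) (f ^ N) :=
        (Commute.refl _).sub_left hcomm.symm
      have h5 : Commute (f ^ N - Q • 1 : End L V) (Q • (1 : End L V)) :=
        (Commute.one_right _).smul_right Q
      exact (h4.pow_right i).mul_right (h5.pow_right _)
    rw [h2, h3.mul_pow, End.mul_apply] at h1
    exact ⟨_, h1⟩

end Pool.Agent.Helper41.AC
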