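import Pool.Agent.Helper41.AC.Ten

/-!
# Functions with absolutely summable expansions in characters
-/

namespace Pool.Agent.Helper41.AC

open Finset
open Pool.Agent.Helper73.QC (residues)

variable {F : Type} [Field F]

/-- `f` is, at the points with nonzero coordinates, a combination of characters such that the sum
of the absolute values of the coefficients is at most `K`. -/
def Repr (f : (Fin 10 → F) → ℂ) (K : ℝ) : Prop :=
  ∃ (ι : Type) (_ : Fintype ι) (c : ι → ℂ) (ψ : ι → Fin 10 → MulChar F ℂ),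
    (∀ x, (∀ i, x i ≠ 0) → f x = ∑ j, c j * ∏ i, ψ j i (x i)) ∧ ∑ j, ‖c j‖ ≤ K

theorem Repr.nonneg {f : (Fin 10 → F) → ℂ} {K : ℝ} (h : Repr f K) : 0 ≤ K := by
  obtain ⟨ι, _, c, ψ, -, h⟩ := h
  exact (Finset.sum_nonneg fun j _ => norm_nonneg _).trans h

theorem Repr.mono {f : (Fin 10 → F) → ℂ} {K K' : ℝ} (h : Repr f K) (hK : K ≤ K') : Repr f K' := by
  obtain ⟨ι, _, c, ψ, h1, h⟩ := h
  exact ⟨ι, _, c, ψ, h1, h.trans hK⟩

theorem Repr.congr {f g : (Fin 10 → F) → ℂ} {K : ℝ} (h : Repr f K)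
    (hfg : ∀ x, (∀ i, x i ≠ 0) → g x = f x) : Repr g K := by
  obtain ⟨ι, _, c, ψ, h1, h⟩ := h
  exact ⟨ι, _, c, ψ, fun x hx => (hfg x hx).trans (h1 x hx), h⟩

theorem repr_char (c : ℂ) (ψ : Fin 10 → MulChar F ℂ) :
    Repr (fun x => c * ∏ i, ψ i (x i)) ‖c‖ :=
  ⟨Unit, inferInstance, fun _ => c, fun _ => ψ, fun x _ => by simp, by simp⟩

theorem repr_const (c : ℂ) : Repr (fun _ : Fin 10 → F => c) ‖c‖ := by
  refine (repr_char c 1).congr fun x hx => ?_
  have : ∀ i, (1 : Fin 10 → MulChar F ℂ) i (x i) = 1 := fun i =>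
    MulChar.one_apply (Ne.isUnit (hx i))
  change c = c * ∏ i, (1 : Fin 10 → MulChar F ℂ) i (x i)
  rw [Finset.prod_eq_one fun i _ => this i, mul_one]

theorem Repr.add {f g : (Fin 10 → F) → ℂ} {K K' : ℝ} (hf : Repr f K) (hg : Repr g K') :
    Repr (fun x => f x + g x) (K + K') := by
  obtain ⟨ι, _, c, ψ, h1, h⟩ := hf
  obtain ⟨ι', _, c', ψ', h1', h'⟩ := hg
  refine ⟨ι ⊕ ι', inferInstance, Sum.elim c c', Sum.elim ψ ψ', fun x hx => ?_, ?_⟩
  · change f x + g x = _
    rw [h1 x hx, h1' x hx, Fintype.sum_sum_type]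
    simp
  · rw [Fintype.sum_sum_type]
    simp only [Sum.elim_inl, Sum.elim_inr]
    exact add_le_add h h'

theorem Repr.mul {f g : (Fin 10 → F) → ℂ} {K K' : ℝ} (hf : Repr f K) (hg : Repr g K') :
    Repr (fun x => f x * g x) (K * K') := by
  obtain ⟨ι, _, c, ψ, h1, h⟩ := hf
  obtain ⟨ι', _, c', ψ', h1', h'⟩ := hg
  refine ⟨ι × ι', inferInstance, fun j => c j.1 * c' j.2, fun j => ψ j.1 * ψ' j.2,
    fun x hx => ?_, ?_⟩
  · change f x * g x = _
    rw [h1 x hx, h1' x hx, Fintype.sum_prod_type, Finset.sum_mul]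
    refine Finset.sum_congr rfl fun j _ => ?_
    rw [Finset.mul_sum]
    refine Finset.sum_congr rfl fun j' _ => ?_
    have : ∏ i, (ψ j * ψ' j') i (x i) = (∏ i, ψ j i (x i)) * ∏ i, ψ' j' i (x i) := by
      rw [← Finset.prod_mul_distrib]
      rfl
    rw [this]
    ring
  · rw [Fintype.sum_prod_type]
    simp only [norm_mul]
    rw [← Finset.sum_mul_sum]
    exact mul_le_mul h h' (Finset.sum_nonneg fun j _ => norm_nonneg _)
      ((Finset.sum_nonneg fun j _ => norm_nonneg _).trans h)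

theorem Repr.sum {κ : Type} {s : Finset κ} {f : κ → (Fin 10 → F) → ℂ} {K : κ → ℝ}
    (h : ∀ k ∈ s, Repr (f k) (K k)) : Repr (fun x => ∑ k ∈ s, f k x) (∑ k ∈ s, K k) := by
  classical
  induction s using Finset.induction_on with
  | empty => simpa using repr_const (F := F) 0
  | insert a s ha ih =>
    have h1 := (h a (Finset.mem_insert_self a s)).add
      (ih fun k hk => h k (Finset.mem_insert_of_mem hk))
    rw [Finset.sum_insert ha]
    refine h1.congr fun x _ => ?_
    rw [Finset.sum_insert ha]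

theorem Repr.prod {κ : Type} {s : Finset κ} {f : κ → (Fin 10 → F) → ℂ} {K : κ → ℝ}
    (h : ∀ k ∈ s, Repr (f k) (K k)) : Repr (fun x => ∏ k ∈ s, f k x) (∏ k ∈ s, K k) := by
  classical
  induction s using Finset.induction_on with
  | empty => simpa using repr_const (F := F) 1
  | insert a s ha ih =>
    have h1 := (h a (Finset.mem_insert_self a s)).mul
      (ih fun k hk => h k (Finset.mem_insert_of_mem hk))
    rw [Finset.prod_insert ha]
    refine h1.congr fun x _ => ?_
    rw [Finset.prod_insert ha]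

variable [Fintype F] [DecidableEq F]

/-- the points where no residue vanishes -/
def nondeg (F : Type) [Field F] [Fintype F] [DecidableEq F] : Finset (Fin 5 → F) :=
  Finset.univ.filter fun u => ∀ i, residues u i ≠ 0

/-- the points with nonzero coordinates -/
def torus (F : Type) [Field F] [Fintype F] [DecidableEq F] : Finset (Fin 10 → F) :=
  Finset.univ.filter fun x => ∀ i, x i ≠ 0

omit [Fintype F] [DecidableEq F] in
theorem prod_eq_zero_of {χ : Fin 10 → MulChar F ℂ} {x : Fin 10 → F} (h : ¬ ∀ i, x i ≠ 0) :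
    ∏ i, χ i (x i) = 0 := by
  push Not at h
  obtain ⟨i, hi⟩ := h
  exact Finset.prod_eq_zero (Finset.mem_univ i) (by rw [hi, MulChar.map_zero])

theorem sum_nondeg (χ : Fin 10 → MulChar F ℂ) :
    ∑ u ∈ nondeg F, ∏ i, χ i (residues u i) = ∑ u : Fin 5 → F, ∏ i, χ i (residues u i) := by
  rw [nondeg, Finset.sum_filter]
  refine Finset.sum_congr rfl fun u _ => ?_
  split_ifs with h
  · rfl
  · rw [prod_eq_zero_of h]

theorem sum_torus {χ : Fin 10 → MulChar F ℂ} (hχ : χ ≠ 1) :
    ∑ x ∈ torus F, ∏ i, χ i (x i) = 0 := by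
  have h1 : ∑ x ∈ torus F, ∏ i, χ i (x i) = ∑ x : Fin 10 → F, ∏ i, χ i (x i) := by
    rw [torus, Finset.sum_filter]
    refine Finset.sum_congr rfl fun u _ => ?_
    split_ifs with h
    · rfl
    · rw [prod_eq_zero_of h]
  have h2 := Finset.prod_univ_sum (fun _ : Fin 10 => (Finset.univ : Finset F))
    (fun i x => χ i x)
  rw [Fintype.piFinset_univ] at h2
  rw [h1, ← h2]
  obtain ⟨i, hi⟩ : ∃ i, χ i ≠ 1 := by
    by_contra hc
    push Not at hc
    exact hχ (funext hc)
  exact Finset.prod_eq_zero (Finset.mem_univ i) (MulChar.sum_eq_zero_of_ne_one hi)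

omit [Fintype F] [DecidableEq F] in
theorem sum_one {ι : Type} (s : Finset ι) (x : ι → Fin 10 → F) (h : ∀ u ∈ s, ∀ i, x u i ≠ 0) :
    ∑ u ∈ s, ∏ i, (1 : Fin 10 → MulChar F ℂ) i (x u i) = s.card := by
  have : ∀ u ∈ s, ∏ i, (1 : Fin 10 → MulChar F ℂ) i (x u i) = 1 := by
    intro u hu
    refine Finset.prod_eq_one fun i _ => ?_
    exact MulChar.one_apply (Ne.isUnit (h u hu i))
  rw [Finset.sum_congr rfl this]
  simp

/-- The ten residues are equidistributed. -/
theorem equi {f : (Fin 10 → F) → ℂ} {K : ℝ} (h : Repr f K) {M : ℂ}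
    (hM : ∑ x ∈ torus F, f x = M * (torus F).card) :
    ‖∑ u ∈ nondeg F, f (residues u) - M * (nondeg F).card‖ ≤
      K * Real.sqrt (2 * (Fintype.card F : ℝ) ^ 9) := by
  classical
  obtain ⟨ι, _, c, ψ, h1, h⟩ := h
  have ht : 0 < (torus F).card := by
    refine Finset.card_pos.2 ⟨fun _ => 1, ?_⟩
    simp [torus]
  have ht' : ((torus F).card : ℂ) ≠ 0 := Nat.cast_ne_zero.2 ht.ne'
  have hmem : ∀ x ∈ torus F, ∀ i, x i ≠ 0 := fun x hx => (Finset.mem_filter.1 hx).2
  have hmem' : ∀ u ∈ nondeg F, ∀ i, residues u i ≠ 0 := fun u hu => (Finset.mem_filter.1 hu).2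
  have h2 : M = ∑ j, if ψ j = 1 then c j else 0 := by
    have h3 : ∑ x ∈ torus F, f x = (∑ j, if ψ j = 1 then c j else 0) * (torus F).card := by
      rw [Finset.sum_congr rfl fun x hx => h1 x (hmem x hx), Finset.sum_comm, Finset.sum_mul]
      refine Finset.sum_congr rfl fun j _ => ?_
      rw [← Finset.mul_sum]
      split_ifs with hj
      · rw [hj, sum_one _ _ hmem]
      · rw [sum_torus hj, mul_zero, zero_mul]
    rw [h3] at hM
    exact (mul_right_cancel₀ ht' hM).symm
  have h3 : ∑ u ∈ nondeg F, f (residues u) - M * (nondeg F).card =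
      ∑ j, if ψ j = 1 then 0 else c j * ∑ u : Fin 5 → F, ∏ i, ψ j i (residues u i) := by
    rw [h2, Finset.sum_congr rfl fun u hu => h1 _ (hmem' u hu), Finset.sum_comm, Finset.sum_mul,
      ← Finset.sum_sub_distrib]
    refine Finset.sum_congr rfl fun j _ => ?_
    rw [← Finset.mul_sum]
    split_ifs with hj
    · rw [hj, sum_one _ _ hmem', sub_self]
    · rw [sum_nondeg, zero_mul, sub_zero]
  rw [h3]
  refine (norm_sum_le _ _).trans ?_
  calc _ ≤ ∑ j, ‖c j‖ * Real.sqrt (2 * (Fintype.card F : ℝ) ^ 9) := by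
        refine Finset.sum_le_sum fun j _ => ?_
        split_ifs with hj
        · rw [norm_zero]
          positivity
        · rw [norm_mul]
          gcongr
          exact Real.le_sqrt_of_sq_le (ten_sum hj)
    _ = (∑ j, ‖c j‖) * Real.sqrt (2 * (Fintype.card F : ℝ) ^ 9) := by rw [Finset.sum_mul]
    _ ≤ _ := by gcongr

end Pool.Agent.Helper41.AC
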